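import Mathlib

set_option autoImplicit false

namespace Pool.Agent.Helper27.AD

open Set Topology Filter

/-- a rich family of continuous functions -/
structure Good {X : Type*} [TopologicalSpace X] (A : Set (X → ℝ)) : Prop where
  cont : ∀ a ∈ A, Continuous a
  lam : ∀ a ∈ A, ∀ b ∈ A, ∀ (S : Finset X) (V : Set X), IsOpen V → (∀ x ∈ S, x ∈ V) →
    ∃ c ∈ A, (∀ x ∈ S, c x = b x) ∧ (∀ x, x ∉ V → c x = a x) ∧ (∀ x, |a x - c x| ≤ |a x - b x|) ∧
      (∀ (x : X) (m : ℝ), |a x| ≤ m → |b x| ≤ m → |c x| ≤ m)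
  dense : ∀ (m : ℕ) (f : X → ℝ), (∀ x, |f x| ≤ m) → ∀ (S : Finset X) (η : ℝ), 0 < η →
    ∃ a ∈ A, (∀ x, |a x| ≤ m) ∧ ∀ x ∈ S, |a x - f x| < η

section defs

variable {X Y : Type*}

/-- the tuple `z` controls the value at `y` on the cube up to `ε` -/
def Ctrl (φ : (X → ℝ) → (Y → ℝ)) (m : ℕ) (ε δ : ℝ) {n : ℕ} (z : Fin n → X) (y : Y) : Prop :=
  ∀ f g : X → ℝ, (∀ x, |f x| ≤ m) → (∀ x, |g x| ≤ m) → (∀ i, |f (z i) - g (z i)| < δ) →
    |φ f y - φ g y| ≤ ε

/-- the value at `y` changes by at least `t` under a change of a function of the cube at the point `x` only -/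
def Big (φ : (X → ℝ) → (Y → ℝ)) (m : ℕ) (t : ℝ) (x : X) (y : Y) : Prop :=
  ∃ f g : X → ℝ, (∀ x, |f x| ≤ m) ∧ (∀ x, |g x| ≤ m) ∧ (∀ w, w ≠ x → f w = g w) ∧ t ≤ |φ f y - φ g y|

/-- points controlled by `n` points -/
def Cs (φ : (X → ℝ) → (Y → ℝ)) (m : ℕ) (ε δ : ℝ) (n : ℕ) : Set Y :=
  {y | ∃ z : Fin n → X, Ctrl φ m ε δ z y}

lemma Big.mono {φ : (X → ℝ) → (Y → ℝ)} {m : ℕ} {t t' : ℝ} {x : X} {y : Y} (h : Big φ m t x y) (ht : t' ≤ t) :
    Big φ m t' x y := by
  obtain ⟨f, g, h1, h2, h3, h4⟩ := h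
  exact ⟨f, g, h1, h2, h3, ht.trans h4⟩

lemma Ctrl.not_big {φ : (X → ℝ) → (Y → ℝ)} {m : ℕ} {ε δ t : ℝ} {n : ℕ} {z : Fin n → X} {x : X} {y : Y}
    (h : Ctrl φ m ε δ z y) (hδ : 0 < δ) (ht : ε < t) (hb : Big φ m t x y) : ∃ i, z i = x := by
  by_contra hcon
  push Not at hcon
  obtain ⟨f, g, h1, h2, h3, h4⟩ := hb
  have := h f g h1 h2 (fun i => by rw [h3 _ (hcon i), sub_self, abs_zero]; exact hδ)
  linarith

end defs

lemma nhds_pi_real {X : Type*} {f : X → ℝ} {N : Set (X → ℝ)} (hN : N ∈ 𝓝 f) :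
    ∃ (S : Finset X) (η : ℝ), 0 < η ∧ ∀ f' : X → ℝ, (∀ x ∈ S, |f' x - f x| < η) → f' ∈ N := by
  classical
  rw [nhds_pi, Filter.mem_pi] at hN
  obtain ⟨I, hI, t, ht, hsub⟩ := hN
  have h1 : ∀ i, ∃ η : ℝ, 0 < η ∧ Metric.ball (f i) η ⊆ t i := fun i => Metric.mem_nhds_iff.1 (ht i)
  choose η hη hηt using h1
  have h2 : ∀ᶠ r in 𝓝[>] (0 : ℝ), ∀ i ∈ I, r < η i := by
    rw [Filter.eventually_all_finite hI]
    intro i _
    exact eventually_nhdsWithin_of_eventually_nhds (eventually_lt_nhds (hη i))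
  obtain ⟨r, hr, hr0⟩ := (h2.and self_mem_nhdsWithin).exists
  refine ⟨hI.toFinset, r, hr0, fun f' hf' => hsub ?_⟩
  intro i hi
  apply hηt
  rw [Metric.mem_ball, Real.dist_eq]
  exact (hf' i (hI.mem_toFinset.2 hi)).trans (hr i hi)

lemma ultra_lim {ι : Type*} (𝒰 : Ultrafilter ι) {u : ι → ℝ} {m : ℝ} (h : ∀ᶠ k in (𝒰 : Filter ι), |u k| ≤ m) :
    ∃ s : ℝ, |s| ≤ m ∧ Tendsto u 𝒰 (𝓝 s) := by
  have hc : IsCompact (Icc (-m) m) := isCompact_Icc
  obtain ⟨s, hs, hs2⟩ := hc.ultrafilter_le_nhds (𝒰.map u) (by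
    rw [le_principal_iff]
    change ∀ᶠ k in (𝒰 : Filter ι), u k ∈ Icc (-m) m
    exact h.mono fun k hk => abs_le.1 hk)
  exact ⟨s, abs_le.2 hs, hs2⟩

lemma ev_ne {X ι : Type*} [TopologicalSpace X] [T2Space X] {l : Filter ι} {u v : ι → X} {a b : X}
    (hu : Tendsto u l (𝓝 a)) (hv : Tendsto v l (𝓝 b)) (h : a ≠ b) : ∀ᶠ k in l, u k ≠ v k := by
  obtain ⟨U, V, hU, hV, ha, hb, hd⟩ := t2_separation h
  filter_upwards [hu.eventually (hU.mem_nhds ha), hv.eventually (hV.mem_nhds hb)] with k h1 h2 h3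
  exact Set.disjoint_left.1 hd h1 (h3 ▸ h2)

lemma extend_bound {X : Type*} {n : ℕ} {x : Fin n → X} {s : Fin n → ℝ} {m : ℕ}
    (hs : ∀ i, |s i| ≤ m) (p : X) : |Function.extend x s 0 p| ≤ m := by
  classical
  by_cases h : ∃ i, x i = p
  · rw [Function.extend_def, dif_pos h]
    exact hs _
  · rw [Function.extend_apply' _ _ _ h]
    simp

section limits

variable {X Y : Type*} [TopologicalSpace X] [TopologicalSpace Y] [T2Space X]
  {φ : (X → ℝ) → (Y → ℝ)} {A : Set (X → ℝ)} {m : ℕ} {ε δ : ℝ}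
  {ι : Type*} {𝒰 : Ultrafilter ι} {y : ι → Y} {y0 : Y}

omit [T2Space X] in
/-- limits of control tuples control -/
lemma ctrl_limit' (hA : Good A) (hφ : ∀ a ∈ A, Continuous (φ a)) (hφc : Continuous φ) (hδ : 0 < δ)
    (hy : Tendsto y 𝒰 (𝓝 y0)) {n : ℕ} {z : ι → Fin n → X}
    (hz : ∀ᶠ k in (𝒰 : Filter ι), Ctrl φ m ε δ (z k) (y k)) (f g : X → ℝ) (hf : ∀ x, |f x| ≤ m)
    (hg : ∀ x, |g x| ≤ m)
    (hfg : ∀ i x, Tendsto (fun k => z k i) 𝒰 (𝓝 x) → |f x - g x| < δ) : |φ f y0 - φ g y0| ≤ ε := by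
  classical
  by_contra hcon
  push Not at hcon
  have hcy : Continuous fun p : (X → ℝ) × (X → ℝ) => |φ p.1 y0 - φ p.2 y0| :=
    (((continuous_apply y0).comp (hφc.comp continuous_fst)).sub
      ((continuous_apply y0).comp (hφc.comp continuous_snd))).abs
  have hnh : ∀ᶠ p in 𝓝 (f, g), ε < |φ (p : (X → ℝ) × (X → ℝ)).1 y0 - φ p.2 y0| :=
    hcy.continuousAt.eventually (lt_mem_nhds hcon)
  rw [nhds_prod_eq] at hnh
  obtain ⟨Pf, hPf, Pg, hPg, hP⟩ := Filter.eventually_prod_iff.1 hnh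
  obtain ⟨S1, η1, hη1, hS1⟩ := nhds_pi_real hPf
  obtain ⟨S2, η2, hη2, hS2⟩ := nhds_pi_real hPg
  -- limit points
  have hk0 : Nonempty ι := 𝒰.neBot.nonempty
  obtain ⟨k0⟩ := hk0
  let x : Fin n → X := fun i => if h : ∃ x, Tendsto (fun k => z k i) 𝒰 (𝓝 x) then h.choose else z k0 i
  have hx : ∀ i, (∃ x, Tendsto (fun k => z k i) 𝒰 (𝓝 x)) → Tendsto (fun k => z k i) 𝒰 (𝓝 (x i)) := by
    intro i h
    simp only [x, dif_pos h]
    exact h.choose_spec
  obtain ⟨η, ⟨⟨hη0, hηa⟩, hηb⟩, hηc⟩ : ∃ η : ℝ, ((0 < η ∧ η < η1) ∧ η < η2) ∧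
      ∀ i, Tendsto (fun k => z k i) 𝒰 (𝓝 (x i)) → |f (x i) - g (x i)| + 2 * η < δ := by
    have h2 : ∀ᶠ r in 𝓝[>] (0 : ℝ), ((0 < r ∧ r < η1) ∧ r < η2) ∧
      ∀ i, Tendsto (fun k => z k i) 𝒰 (𝓝 (x i)) → |f (x i) - g (x i)| + 2 * r < δ := by
      refine Filter.Eventually.and (Filter.Eventually.and (Filter.Eventually.and self_mem_nhdsWithin ?_) ?_) ?_
      · exact eventually_nhdsWithin_of_eventually_nhds (eventually_lt_nhds hη1)
      · exact eventually_nhdsWithin_of_eventually_nhds (eventually_lt_nhds hη2)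
      · rw [Filter.eventually_all]
        intro i
        by_cases hi : Tendsto (fun k => z k i) 𝒰 (𝓝 (x i))
        · have h3 := hfg i (x i) hi
          have h4 : Tendsto (fun r : ℝ => |f (x i) - g (x i)| + 2 * r) (𝓝 0) (𝓝 (|f (x i) - g (x i)| + 2 * 0)) :=
            (continuous_const.add (continuous_const.mul continuous_id)).tendsto 0
          rw [mul_zero, add_zero] at h4
          exact eventually_nhdsWithin_of_eventually_nhds ((h4.eventually (gt_mem_nhds h3)).mono fun r hr _ => hr)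
        · exact Filter.Eventually.of_forall fun r h => absurd h hi
    exact h2.exists
  let S : Finset X := S1 ∪ S2 ∪ Finset.univ.image x
  obtain ⟨a, haA, ham, haS⟩ := hA.dense m f hf S η hη0
  obtain ⟨b, hbA, hbm, hbS⟩ := hA.dense m g hg S η hη0
  -- open neighbourhood of S avoided by the escaping coordinates
  have hV : ∀ s : X, ∃ V : Set X, IsOpen V ∧ s ∈ V ∧ ∀ i, (¬ ∃ x, Tendsto (fun k => z k i) 𝒰 (𝓝 x)) →
      ∀ᶠ k in (𝒰 : Filter ι), z k i ∉ V := by
    intro s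
    have h1 : ∀ i, ∃ V : Set X, IsOpen V ∧ s ∈ V ∧ ((¬ ∃ x, Tendsto (fun k => z k i) 𝒰 (𝓝 x)) →
      ∀ᶠ k in (𝒰 : Filter ι), z k i ∉ V) := by
      intro i
      by_cases hi : ∃ x, Tendsto (fun k => z k i) 𝒰 (𝓝 x)
      · exact ⟨univ, isOpen_univ, mem_univ _, fun h => absurd hi h⟩
      · have h2 : ¬ Tendsto (fun k => z k i) 𝒰 (𝓝 s) := fun h => hi ⟨s, h⟩
        rw [Filter.tendsto_def] at h2
        push Not at h2
        obtain ⟨V, hV1, hV2⟩ := h2
        obtain ⟨V', hV'1, hV'2, hV'3⟩ := mem_nhds_iff.1 hV1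
        refine ⟨V', hV'2, hV'3, fun _ => ?_⟩
        have h3 : ¬ ∀ᶠ k in (𝒰 : Filter ι), z k i ∈ V' := by
          intro h4
          exact hV2 (h4.mono fun k hk => hV'1 hk)
        exact Ultrafilter.eventually_not.2 h3
    choose V hV1 hV2 hV3 using h1
    refine ⟨⋂ i, V i, isOpen_iInter_of_finite hV1, mem_iInter.2 hV2, fun i hi => ?_⟩
    exact (hV3 i hi).mono fun k hk h => hk (mem_iInter.1 h i)
  choose V hV1 hV2 hV3 using hV
  obtain ⟨c, hcA, hcS, hcV, hcab, hcm⟩ := hA.lam a haA b hbA S (⋃ s ∈ S, V s)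
    (isOpen_biUnion fun s _ => hV1 s) (fun s hs => mem_iUnion₂.2 ⟨s, hs, hV2 s⟩)
  have hev : ∀ᶠ k in (𝒰 : Filter ι), ∀ i, |a (z k i) - c (z k i)| < δ := by
    rw [Filter.eventually_all]
    intro i
    by_cases hi : ∃ x, Tendsto (fun k => z k i) 𝒰 (𝓝 x)
    · have hxi := hx i hi
      have h1 : Tendsto (fun k => |a (z k i) - b (z k i)|) 𝒰 (𝓝 |a (x i) - b (x i)|) := by
        have hab : Continuous fun p => |a p - b p| := ((hA.cont a haA).sub (hA.cont b hbA)).abs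
        exact (hab.tendsto (x i)).comp hxi
      have h2 : |a (x i) - b (x i)| < δ := by
        have hxS : x i ∈ S := by
          simp only [S, Finset.mem_union, Finset.mem_image, Finset.mem_univ, true_and]
          exact Or.inr ⟨i, rfl⟩
        have e1 := haS _ hxS
        have e2 := hbS _ hxS
        have e3 := hηc i hxi
        rw [abs_lt] at e1 e2 ⊢
        have e4 := abs_le.1 (le_refl |f (x i) - g (x i)|)
        constructor <;> linarith [e4.1, e4.2, e1.1, e1.2, e2.1, e2.2]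
      exact (h1.eventually (gt_mem_nhds h2)).mono fun k hk => (hcab _).trans_lt hk
    · have h1 : ∀ᶠ k in (𝒰 : Filter ι), ∀ s ∈ S, z k i ∉ V s := by
        rw [Filter.eventually_all_finset]
        intro s _
        exact hV3 s i hi
      refine h1.mono fun k hk => ?_
      have : z k i ∉ ⋃ s ∈ S, V s := by
        intro h
        obtain ⟨s, hs, hs2⟩ := mem_iUnion₂.1 h
        exact hk s hs hs2
      rw [hcV _ this, sub_self, abs_zero]
      exact hδ
  have hle : ∀ᶠ k in (𝒰 : Filter ι), |φ a (y k) - φ c (y k)| ≤ ε := by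
    filter_upwards [hev, hz] with k h1 h2
    exact h2 a c ham (fun p => hcm p m (ham p) (hbm p)) h1
  have hlim : Tendsto (fun k => |φ a (y k) - φ c (y k)|) 𝒰 (𝓝 |φ a y0 - φ c y0|) := by
    have : Continuous fun p => |φ a p - φ c p| := ((hφ a haA).sub (hφ c hcA)).abs
    exact (this.tendsto y0).comp hy
  have h1 := le_of_tendsto hlim hle
  have h2 : ε < |φ a y0 - φ c y0| := by
    refine hP (x := a) (y := c) (hS1 a fun p hp => ?_) (hS2 c fun p hp => ?_)
    · exact (haS p (by simp [S, hp])).trans hηa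
    · have hpS : p ∈ S := by simp [S, hp]
      rw [hcS p hpS]
      exact (hbS p hpS).trans hηb
  linarith

/-- all coordinates converge when the limit point is not controlled by fewer points -/
lemma lim_all (hA : Good A) (hφ : ∀ a ∈ A, Continuous (φ a)) (hφc : Continuous φ) (hδ : 0 < δ)
    (hy : Tendsto y 𝒰 (𝓝 y0)) {n : ℕ} {z : ι → Fin (n + 1) → X}
    (hz : ∀ᶠ k in (𝒰 : Filter ι), Ctrl φ m ε δ (z k) (y k)) (hn : y0 ∉ Cs φ m ε δ n) :
    ∃ x : Fin (n + 1) → X, Function.Injective x ∧ (∀ i, Tendsto (fun k => z k i) 𝒰 (𝓝 (x i))) ∧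
      Ctrl φ m ε δ x y0 := by
  classical
  have hk0 : Nonempty ι := 𝒰.neBot.nonempty
  obtain ⟨k0⟩ := hk0
  let x : Fin (n + 1) → X := fun i => if h : ∃ x, Tendsto (fun k => z k i) 𝒰 (𝓝 x) then h.choose else z k0 i
  have hx : ∀ i, (∃ x, Tendsto (fun k => z k i) 𝒰 (𝓝 x)) → Tendsto (fun k => z k i) 𝒰 (𝓝 (x i)) := by
    intro i h
    simp only [x, dif_pos h]
    exact h.choose_spec
  have hall : ∀ i, Tendsto (fun k => z k i) 𝒰 (𝓝 (x i)) := by
    intro i1
    by_contra hcon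
    apply hn
    refine ⟨fun j => x (i1.succAbove j), fun f g hf hg hfg => ?_⟩
    refine ctrl_limit' hA hφ hφc hδ hy hz f g hf hg fun i x' hx' => ?_
    have hi : i ≠ i1 := by
      rintro rfl
      exact hcon (hx i ⟨x', hx'⟩)
    obtain ⟨j, rfl⟩ := Fin.exists_succAbove_eq hi
    have : x' = x (i1.succAbove j) := tendsto_nhds_unique hx' (hx _ ⟨x', hx'⟩)
    rw [this]
    exact hfg j
  have hctrl : Ctrl φ m ε δ x y0 := by
    intro f g hf hg hfg
    refine ctrl_limit' hA hφ hφc hδ hy hz f g hf hg fun i x' hx' => ?_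
    have : x' = x i := tendsto_nhds_unique hx' (hall i)
    rw [this]
    exact hfg i
  refine ⟨x, ?_, hall, hctrl⟩
  intro i i' hii
  by_contra hne
  apply hn
  refine ⟨fun j => x (i.succAbove j), fun f g hf hg hfg => ?_⟩
  refine hctrl f g hf hg fun l => ?_
  by_cases hl : l = i
  · rw [hl, hii]
    obtain ⟨j, hj⟩ := Fin.exists_succAbove_eq (fun h => hne h.symm : i' ≠ i)
    rw [← hj]
    exact hfg j
  · obtain ⟨j, rfl⟩ := Fin.exists_succAbove_eq hl
    exact hfg j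

lemma isClosed_Cs (hA : Good A) (hφ : ∀ a ∈ A, Continuous (φ a)) (hφc : Continuous φ) (hδ : 0 < δ) (n : ℕ) :
    IsClosed (Cs φ m ε δ n) := by
  classical
  rw [isClosed_iff_ultrafilter]
  intro y1 u hu hmem
  have h1 : ∀ᶠ k in (u : Filter Y), ∃ z : Fin n → X, Ctrl φ m ε δ z k := hmem
  obtain ⟨z, hz⟩ := h1.choice
  let x : Fin n → X := fun i => if h : ∃ x, Tendsto (fun k => z k i) u (𝓝 x) then h.choose else z y1 i
  have hx : ∀ i, (∃ x, Tendsto (fun k => z k i) u (𝓝 x)) → Tendsto (fun k => z k i) u (𝓝 (x i)) := by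
    intro i h
    simp only [x, dif_pos h]
    exact h.choose_spec
  refine ⟨x, fun f g hf hg hfg => ?_⟩
  refine ctrl_limit' hA hφ hφc hδ (y := fun k => k) (z := z) hu hz f g hf hg fun i x' hx' => ?_
  rw [tendsto_nhds_unique hx' (hx i ⟨x', hx'⟩)]
  exact hfg i

/-- upper semicontinuity of dependence -/
lemma big_usc (hA : Good A) (hφ : ∀ a ∈ A, Continuous (φ a)) (hφc : Continuous φ) (hδ : 0 < δ)
    (hy : Tendsto y 𝒰 (𝓝 y0)) {n : ℕ} (hC : ∀ᶠ k in (𝒰 : Filter ι), y k ∈ Cs φ m ε δ (n + 1))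
    (hn : y0 ∉ Cs φ m ε δ n) {t : ℝ} (ht : ε < t) {w : ι → X}
    (hB : ∀ᶠ k in (𝒰 : Filter ι), Big φ m t (w k) (y k)) :
    ∃ w0, Tendsto w 𝒰 (𝓝 w0) ∧ Big φ m (t - 3 * ε) w0 y0 := by
  classical
  obtain ⟨z, hz⟩ := (hC : ∀ᶠ k in (𝒰 : Filter ι), ∃ z : Fin (n + 1) → X, Ctrl φ m ε δ z (y k)).choice
  obtain ⟨x, hxi, hxl, hxc⟩ := lim_all hA hφ hφc hδ hy hz hn
  have h1 : ∀ᶠ k in (𝒰 : Filter ι), ∃ i, z k i = w k := by
    filter_upwards [hz, hB] with k h1 h2
    exact h1.not_big hδ ht h2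
  obtain ⟨i0, hi0⟩ := Ultrafilter.eventually_exists_iff.1 h1
  have hwl : Tendsto w 𝒰 (𝓝 (x i0)) := (hxl i0).congr' hi0
  refine ⟨x i0, hwl, ?_⟩
  obtain ⟨f, hf⟩ := (hB : ∀ᶠ k in (𝒰 : Filter ι), ∃ f : X → ℝ, ∃ g : X → ℝ, (∀ p, |f p| ≤ m) ∧ (∀ p, |g p| ≤ m) ∧
    (∀ p, p ≠ w k → f p = g p) ∧ t ≤ |φ f (y k) - φ g (y k)|).choice
  obtain ⟨g, hg⟩ := hf.choice
  have hs : ∀ i, ∃ s : ℝ, |s| ≤ m ∧ Tendsto (fun k => f k (z k i)) 𝒰 (𝓝 s) := fun i =>
    ultra_lim 𝒰 (hg.mono fun k hk => hk.1 _)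
  have hs' : ∀ i, ∃ s : ℝ, |s| ≤ m ∧ Tendsto (fun k => g k (z k i)) 𝒰 (𝓝 s) := fun i =>
    ultra_lim 𝒰 (hg.mono fun k hk => hk.2.1 _)
  choose s hsm hsl using hs
  choose s' hs'm hs'l using hs'
  have hss : ∀ i, i ≠ i0 → s' i = s i := by
    intro i hi
    have h2 : ∀ᶠ k in (𝒰 : Filter ι), z k i ≠ w k :=
      ev_ne (hxl i) hwl (fun h => hi (hxi h))
    refine tendsto_nhds_unique (hs'l i) ((hsl i).congr' ?_)
    filter_upwards [h2, hg] with k h3 h4
    exact h4.2.2.1 _ h3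
  obtain ⟨a, haA, ham, haS⟩ := hA.dense m (Function.extend x s 0) (extend_bound hsm)
    (Finset.univ.image x) (δ / 4) (by linarith)
  obtain ⟨b, hbA, hbm, hbS⟩ := hA.dense m (Function.extend x s' 0) (extend_bound hs'm)
    (Finset.univ.image x) (δ / 4) (by linarith)
  have has : ∀ i, |a (x i) - s i| < δ / 4 := by
    intro i
    have := haS (x i) (Finset.mem_image_of_mem _ (Finset.mem_univ i))
    rwa [hxi.extend_apply] at this
  have hbs : ∀ i, |b (x i) - s' i| < δ / 4 := by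
    intro i
    have := hbS (x i) (Finset.mem_image_of_mem _ (Finset.mem_univ i))
    rwa [hxi.extend_apply] at this
  have hac := hA.cont a haA
  have hbc := hA.cont b hbA
  have e1 : ∀ᶠ k in (𝒰 : Filter ι), ∀ i, |a (z k i) - f k (z k i)| < δ := by
    rw [Filter.eventually_all]
    intro i
    have h3 : Tendsto (fun k => |a (z k i) - f k (z k i)|) 𝒰 (𝓝 |a (x i) - s i|) :=
      (((hac.tendsto (x i)).comp (hxl i)).sub (hsl i)).abs
    exact h3.eventually (gt_mem_nhds (by linarith [has i]))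
  have e2 : ∀ᶠ k in (𝒰 : Filter ι), ∀ i, |b (z k i) - g k (z k i)| < δ := by
    rw [Filter.eventually_all]
    intro i
    have h3 : Tendsto (fun k => |b (z k i) - g k (z k i)|) 𝒰 (𝓝 |b (x i) - s' i|) :=
      (((hbc.tendsto (x i)).comp (hxl i)).sub (hs'l i)).abs
    exact h3.eventually (gt_mem_nhds (by linarith [hbs i]))
  have e3 : ∀ᶠ k in (𝒰 : Filter ι), t - 2 * ε ≤ |φ a (y k) - φ b (y k)| := by
    filter_upwards [e1, e2, hz, hg] with k h1 h2 h3 h4
    have h5 := h3 a (f k) ham h4.1 h1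
    have h6 := h3 b (g k) hbm h4.2.1 h2
    have h7 := h4.2.2.2
    rw [abs_le] at h5 h6
    rcases le_abs.1 h7 with h8 | h8
    · refine le_trans ?_ (le_abs_self _)
      linarith [h5.1, h5.2, h6.1, h6.2]
    · refine le_trans ?_ (neg_le_abs _)
      linarith [h5.1, h5.2, h6.1, h6.2]
  have e4 : t - 2 * ε ≤ |φ a y0 - φ b y0| := by
    have : Continuous fun p => |φ a p - φ b p| := ((hφ a haA).sub (hφ b hbA)).abs
    exact ge_of_tendsto ((this.tendsto y0).comp hy) e3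
  refine ⟨a, Function.update a (x i0) (b (x i0)), ham, ?_, ?_, ?_⟩
  · intro p
    rcases eq_or_ne p (x i0) with rfl | hp
    · rw [Function.update_self]
      exact hbm _
    · rw [Function.update_of_ne hp]
      exact ham _
  · intro p hp
    rw [Function.update_of_ne hp]
  · have h8 : |φ (Function.update a (x i0) (b (x i0))) y0 - φ b y0| ≤ ε := by
      refine hxc _ _ ?_ hbm ?_
      · intro p
        rcases eq_or_ne p (x i0) with rfl | hp
        · rw [Function.update_self]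
          exact hbm _
        · rw [Function.update_of_ne hp]
          exact ham _
      · intro i
        rcases eq_or_ne i i0 with rfl | hi
        · rw [Function.update_self, sub_self, abs_zero]
          exact hδ
        · rw [Function.update_of_ne (fun h => hi (hxi h))]
          have h9 := has i
          have h10 := hbs i
          rw [hss i hi] at h10
          rw [abs_lt] at *
          constructor <;> linarith [h9.1, h9.2, h10.1, h10.2]
    rw [abs_le] at h8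
    rcases le_abs.1 e4 with h9 | h9
    · refine le_trans ?_ (le_abs_self _)
      linarith [h8.1, h8.2]
    · refine le_trans ?_ (neg_le_abs _)
      linarith [h8.1, h8.2]

/-- lower semicontinuity of dependence -/
lemma big_lsc (hA : Good A) (hφ : ∀ a ∈ A, Continuous (φ a)) (hφc : Continuous φ) (hδ : 0 < δ) (hε : 0 < ε)
    (hy : Tendsto y 𝒰 (𝓝 y0)) {n : ℕ} (hC : ∀ᶠ k in (𝒰 : Filter ι), y k ∈ Cs φ m ε δ (n + 1))
    (hn : y0 ∉ Cs φ m ε δ n) {t : ℝ} (ht : ε < t) {w0 : X}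
    (hB : Big φ m t w0 y0) :
    ∃ w : ι → X, Tendsto w 𝒰 (𝓝 w0) ∧ ∀ᶠ k in (𝒰 : Filter ι), Big φ m (t - 2 * ε) (w k) (y k) := by
  classical
  obtain ⟨z, hz⟩ := (hC : ∀ᶠ k in (𝒰 : Filter ι), ∃ z : Fin (n + 1) → X, Ctrl φ m ε δ z (y k)).choice
  obtain ⟨x, hxi, hxl, hxc⟩ := lim_all hA hφ hφc hδ hy hz hn
  obtain ⟨i0, hi0⟩ := hxc.not_big hδ ht hB
  refine ⟨fun k => z k i0, hi0 ▸ hxl i0, ?_⟩
  obtain ⟨f, g, hf, hg, hfg, hfgt⟩ := hB
  have hcy : Continuous fun f : X → ℝ => φ f y0 := (continuous_apply y0).comp hφc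
  obtain ⟨S1, η1, hη1, hS1⟩ := nhds_pi_real (hcy.continuousAt.eventually
    (Metric.ball_mem_nhds (φ f y0) (show 0 < ε / 4 by linarith)))
  obtain ⟨S2, η2, hη2, hS2⟩ := nhds_pi_real (hcy.continuousAt.eventually
    (Metric.ball_mem_nhds (φ g y0) (show 0 < ε / 4 by linarith)))
  obtain ⟨a, haA, ham, haS⟩ := hA.dense m f hf (S1 ∪ Finset.univ.image x) (min η1 (δ / 4))
    (lt_min hη1 (by linarith))
  obtain ⟨b, hbA, hbm, hbS⟩ := hA.dense m g hg (S2 ∪ Finset.univ.image x) (min η2 (δ / 4))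
    (lt_min hη2 (by linarith))
  have ha1 : |φ a y0 - φ f y0| < ε / 4 := by
    have := hS1 a fun p hp => (haS p (Finset.mem_union_left _ hp)).trans_le (min_le_left _ _)
    exact this
  have hb1 : |φ b y0 - φ g y0| < ε / 4 := by
    have := hS2 b fun p hp => (hbS p (Finset.mem_union_left _ hp)).trans_le (min_le_left _ _)
    exact this
  have ha2 : ∀ i, |a (x i) - f (x i)| < δ / 4 := fun i =>
    (haS _ (Finset.mem_union_right _ (Finset.mem_image_of_mem _ (Finset.mem_univ i)))).trans_le (min_le_right _ _)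
  have hb2 : ∀ i, |b (x i) - g (x i)| < δ / 4 := fun i =>
    (hbS _ (Finset.mem_union_right _ (Finset.mem_image_of_mem _ (Finset.mem_univ i)))).trans_le (min_le_right _ _)
  have hab : t - ε < |φ a y0 - φ b y0| := by
    rw [abs_lt] at ha1 hb1
    rcases le_abs.1 hfgt with h8 | h8
    · refine lt_of_lt_of_le ?_ (le_abs_self _)
      linarith [ha1.1, ha1.2, hb1.1, hb1.2]
    · refine lt_of_lt_of_le ?_ (neg_le_abs _)
      linarith [ha1.1, ha1.2, hb1.1, hb1.2]
  have hac := hA.cont a haA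
  have hbc := hA.cont b hbA
  have e1 : ∀ᶠ k in (𝒰 : Filter ι), t - ε < |φ a (y k) - φ b (y k)| := by
    have : Continuous fun p => |φ a p - φ b p| := ((hφ a haA).sub (hφ b hbA)).abs
    exact ((this.tendsto y0).comp hy).eventually (lt_mem_nhds hab)
  have e2 : ∀ᶠ k in (𝒰 : Filter ι), ∀ i, i ≠ i0 → |a (z k i) - b (z k i)| < δ := by
    rw [Filter.eventually_all]
    intro i
    by_cases hi : i = i0
    · exact Filter.Eventually.of_forall fun k h => absurd hi h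
    · have h3 : Tendsto (fun k => |a (z k i) - b (z k i)|) 𝒰 (𝓝 |a (x i) - b (x i)|) :=
        (((hac.tendsto (x i)).comp (hxl i)).sub ((hbc.tendsto (x i)).comp (hxl i))).abs
      have h4 : |a (x i) - b (x i)| < δ := by
        have h5 : f (x i) = g (x i) := hfg _ fun h => hi (hxi (h.trans hi0.symm))
        have h6 := ha2 i
        have h7 := hb2 i
        rw [← h5] at h7
        rw [abs_lt] at *
        constructor <;> linarith [h6.1, h6.2, h7.1, h7.2]
      exact (h3.eventually (gt_mem_nhds h4)).mono fun k hk _ => hk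
  filter_upwards [e1, e2, hz] with k h1 h2 h3
  have hub : ∀ p, |Function.update a (z k i0) (b (z k i0)) p| ≤ m := by
    intro p
    rcases eq_or_ne p (z k i0) with rfl | hp
    · rw [Function.update_self]
      exact hbm _
    · rw [Function.update_of_ne hp]
      exact ham _
  refine ⟨a, Function.update a (z k i0) (b (z k i0)), ham, hub, ?_, ?_⟩
  · intro p hp
    rw [Function.update_of_ne hp]
  · have h8 : |φ (Function.update a (z k i0) (b (z k i0))) (y k) - φ b (y k)| ≤ ε := by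
      refine h3 _ _ hub hbm ?_
      intro i
      by_cases hp : z k i = z k i0
      · rw [hp, Function.update_self, sub_self, abs_zero]
        exact hδ
      · rw [Function.update_of_ne hp]
        exact h2 i (fun h => hp (by rw [h]))
    rw [abs_le] at h8
    rcases lt_abs.1 h1 with h9 | h9
    · refine le_trans ?_ (le_abs_self _)
      linarith [h8.1, h8.2]
    · refine le_trans ?_ (neg_le_abs _)
      linarith [h8.1, h8.2]

end limits

end Pool.Agent.Helper27.AD
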