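import Mathlib
import Pool.Agent.Helper27.AD.Core

set_option autoImplicit false

namespace Pool.Agent.Helper27.AD

open Set Topology Filter

lemma isCompact_cube {X : Type*} (m : ℕ) : IsCompact {f : X → ℝ | ∀ x, |f x| ≤ m} := by
  have h : {f : X → ℝ | ∀ x, |f x| ≤ m} = Set.pi univ fun _ => Icc (-(m : ℝ)) m := by
    ext f
    simp only [Set.mem_ofPred_eq, Set.mem_pi, mem_univ, true_implies, mem_Icc, abs_le]
  rw [h]
  exact isCompact_univ_pi fun _ => isCompact_Icc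

/-- uniform continuity on the compact cube -/
lemma heine {X Y : Type*} {φ : (X → ℝ) → (Y → ℝ)} (hφc : Continuous φ) (m : ℕ) {ε : ℝ} (hε : 0 < ε) (y0 : Y) :
    ∃ (n j : ℕ), y0 ∈ Cs φ m ε (1 / ((j : ℝ) + 1)) n := by
  classical
  by_contra hcon
  push Not at hcon
  have h1 : ∀ p : Finset X × ℕ, ∃ f g : X → ℝ, (∀ x, |f x| ≤ m) ∧ (∀ x, |g x| ≤ m) ∧
      (∀ x ∈ p.1, |f x - g x| < 1 / ((p.2 : ℝ) + 1)) ∧ ε < |φ f y0 - φ g y0| := by
    intro p
    have h2 := hcon p.1.card p.2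
    have h3 : ¬ Ctrl φ m ε (1 / ((p.2 : ℝ) + 1)) (fun i => ((p.1.equivFin.symm i).1 : X)) y0 := fun h => h2 ⟨_, h⟩
    unfold Ctrl at h3
    push Not at h3
    obtain ⟨f, g, hf, hg, hfg, h4⟩ := h3
    refine ⟨f, g, hf, hg, fun x hx => ?_, h4⟩
    have := hfg (p.1.equivFin ⟨x, hx⟩)
    simpa using this
  choose f g hf hg hfg hgt using h1
  let 𝒰 : Ultrafilter (Finset X × ℕ) := Ultrafilter.of atTop
  have hU : (𝒰 : Filter (Finset X × ℕ)) ≤ atTop := Ultrafilter.of_le _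
  obtain ⟨F, -, hF⟩ := (isCompact_cube (X := X) m).ultrafilter_le_nhds (𝒰.map f) (by
    rw [le_principal_iff]
    exact Filter.Eventually.of_forall (f := (𝒰 : Filter (Finset X × ℕ))) (p := fun k => f k ∈ {f : X → ℝ | ∀ x, |f x| ≤ m}) hf)
  obtain ⟨G, -, hG⟩ := (isCompact_cube (X := X) m).ultrafilter_le_nhds (𝒰.map g) (by
    rw [le_principal_iff]
    exact Filter.Eventually.of_forall (f := (𝒰 : Filter (Finset X × ℕ))) (p := fun k => g k ∈ {f : X → ℝ | ∀ x, |f x| ≤ m}) hg)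
  have hF' : Tendsto f 𝒰 (𝓝 F) := hF
  have hG' : Tendsto g 𝒰 (𝓝 G) := hG
  have hFG : F = G := by
    funext x
    have h5 : Tendsto (fun k => |f k x - g k x|) 𝒰 (𝓝 |F x - G x|) :=
      ((((continuous_apply x).tendsto F).comp hF').sub (((continuous_apply x).tendsto G).comp hG')).abs
    have h6 : ∀ j : ℕ, |F x - G x| ≤ 1 / ((j : ℝ) + 1) := by
      intro j
      refine le_of_tendsto h5 ?_
      have h7 : ∀ᶠ k in (atTop : Filter (Finset X × ℕ)), ({x}, j) ≤ k := eventually_ge_atTop _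
      refine hU (h7.mono fun k hk => ?_)
      have h8 := hfg k x (hk.1 (Finset.mem_singleton_self x))
      refine h8.le.trans ?_
      apply one_div_le_one_div_of_le (by positivity)
      have : (j : ℝ) ≤ (k.2 : ℝ) := by exact_mod_cast hk.2
      linarith
    have h9 : |F x - G x| ≤ 0 := ge_of_tendsto' tendsto_one_div_add_atTop_nhds_zero_nat h6
    have h10 := abs_nonneg (F x - G x)
    have h11 : |F x - G x| = 0 := le_antisymm h9 h10
    exact sub_eq_zero.1 (abs_eq_zero.1 h11)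
  have hcy : Continuous fun f : X → ℝ => φ f y0 := (continuous_apply y0).comp hφc
  have h5 : Tendsto (fun k => |φ (f k) y0 - φ (g k) y0|) 𝒰 (𝓝 |φ F y0 - φ G y0|) :=
    (((hcy.tendsto F).comp hF').sub ((hcy.tendsto G).comp hG')).abs
  have h6 : ε ≤ |φ F y0 - φ G y0| := ge_of_tendsto' h5 fun k => (hgt k).le
  rw [hFG, sub_self, abs_zero] at h6
  linarith

lemma big_of_dep {X Y : Type*} {φ : (X → ℝ) → (Y → ℝ)} (hφc : Continuous φ) {x0 : X} {y0 : Y}
    (h : ∃ f g : X → ℝ, (∀ w, w ≠ x0 → f w = g w) ∧ φ f y0 ≠ φ g y0) :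
    ∃ (m : ℕ) (t : ℝ), 0 < t ∧ Big φ m t x0 y0 := by
  obtain ⟨f, g, hfg, hne⟩ := h
  let tr : ℕ → (X → ℝ) → (X → ℝ) := fun m f x => max (-(m : ℝ)) (min m (f x))
  have htr : ∀ f : X → ℝ, Tendsto (fun m => tr m f) atTop (𝓝 f) := by
    intro f
    rw [tendsto_pi_nhds]
    intro x
    obtain ⟨N, hN⟩ := exists_nat_ge |f x|
    refine tendsto_const_nhds.congr' ?_
    filter_upwards [eventually_ge_atTop N] with m hm
    have h1 : |f x| ≤ m := hN.trans (by exact_mod_cast hm)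
    rw [abs_le] at h1
    simp only [tr]
    rw [min_eq_right h1.2, max_eq_right h1.1]
  have hbd : ∀ m f x, |tr m f x| ≤ m := by
    intro m f x
    rw [abs_le]
    refine ⟨le_max_left _ _, max_le ?_ (min_le_left _ _)⟩
    have : (0 : ℝ) ≤ m := Nat.cast_nonneg m
    linarith
  have hcy : Continuous fun f : X → ℝ => φ f y0 := (continuous_apply y0).comp hφc
  have h5 : Tendsto (fun m => |φ (tr m f) y0 - φ (tr m g) y0|) atTop (𝓝 |φ f y0 - φ g y0|) :=
    (((hcy.tendsto f).comp (htr f)).sub ((hcy.tendsto g).comp (htr g))).abs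
  have h6 : 0 < |φ f y0 - φ g y0| := abs_pos.2 (sub_ne_zero.2 hne)
  obtain ⟨m, hm⟩ := (h5.eventually (lt_mem_nhds h6)).exists
  refine ⟨m, _, hm, tr m f, tr m g, hbd m f, hbd m g, fun w hw => ?_, le_rfl⟩
  simp only [tr]
  rw [hfg w hw]

/-- every point has a mutually dependent partner -/
lemma exists_partner {X Y : Type*} (φ : (X → ℝ) ≃ₜ (Y → ℝ)) (y0 : Y) :
    ∃ x0 : X, (∃ f g : X → ℝ, (∀ w, w ≠ x0 → f w = g w) ∧ φ f y0 ≠ φ g y0) ∧
      ∃ u v : Y → ℝ, (∀ w, w ≠ y0 → u w = v w) ∧ φ.symm u x0 ≠ φ.symm v x0 := by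
  classical
  by_contra hcon
  push Not at hcon
  let u : Y → ℝ := 0
  let v : Y → ℝ := Function.update 0 y0 1
  have huv : ∀ w, w ≠ y0 → u w = v w := by
    intro w hw
    simp only [u, v]
    rw [Function.update_of_ne hw]
  let f := φ.symm u
  let g := φ.symm v
  let F : Finset X → (X → ℝ) := fun S x => if x ∈ S then g x else f x
  have hF : ∀ S : Finset X, φ (F S) y0 = φ f y0 := by
    intro S
    induction S using Finset.induction_on with
    | empty =>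
      have : F ∅ = f := by
        funext x
        simp [F]
      rw [this]
    | insert a S ha ih =>
      rw [← ih]
      by_cases hd : ∃ f g : X → ℝ, (∀ w, w ≠ a → f w = g w) ∧ φ f y0 ≠ φ g y0
      · have h1 : f a = g a := hcon a hd u v huv
        have h2 : F (insert a S) = F S := by
          funext x
          simp only [F, Finset.mem_insert]
          by_cases hx : x = a
          · subst hx
            simp [ha, h1]
          · simp [hx]
        rw [h2]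
      · push Not at hd
        apply hd
        intro w hw
        simp [F, Finset.mem_insert, hw]
  have hlim : Tendsto F atTop (𝓝 g) := by
    rw [tendsto_pi_nhds]
    intro x
    refine tendsto_const_nhds.congr' ?_
    filter_upwards [eventually_ge_atTop {x}] with S hS
    have : x ∈ S := hS (Finset.mem_singleton_self x)
    simp [F, this]
  have hcy : Continuous fun f : X → ℝ => φ f y0 := (continuous_apply y0).comp φ.continuous
  have h5 : Tendsto (fun S => φ (F S) y0) atTop (𝓝 (φ g y0)) := (hcy.tendsto g).comp hlim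
  have h6 : φ g y0 = φ f y0 := tendsto_nhds_unique h5 (by simp only [hF]; exact tendsto_const_nhds)
  simp only [f, g, Homeomorph.apply_symm_apply, u, v, Function.update_self, Pi.zero_apply] at h6
  exact one_ne_zero h6

section rel

variable {X Y : Type*} [TopologicalSpace X] [TopologicalSpace Y]

/-- the basic relation -/
def Gr (φ : (X → ℝ) → (Y → ℝ)) (m : ℕ) (ε δ : ℝ) (n : ℕ) (O O1 : Set X) (W1 : Set Y) (x : X) (y : Y) : Prop :=
  x ∈ O1 ∧ y ∈ W1 ∧ y ∈ Cs φ m ε δ (n + 1) ∧ Big φ m (20 * ε) x y ∧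
    ∀ x' ∈ O, x' ≠ x → ¬ Big φ m (10 * ε) x' y

/-- the relation holding on the closure -/
def Hr (φ : (X → ℝ) → (Y → ℝ)) (m : ℕ) (ε δ : ℝ) (n : ℕ) (O O1 : Set X) (W1 : Set Y) (x : X) (y : Y) : Prop :=
  x ∈ closure O1 ∧ y ∈ closure W1 ∧ y ∈ Cs φ m ε δ (n + 1) ∧ Big φ m (17 * ε) x y ∧
    ∀ x' ∈ O, x' ≠ x → ¬ Big φ m (12 * ε) x' y

variable [T2Space X] {φ : (X → ℝ) → (Y → ℝ)} {A : Set (X → ℝ)} {m : ℕ} {ε δ : ℝ} {n : ℕ}
  {O O1 : Set X} {W1 : Set Y} {ι : Type*} {𝒰 : Ultrafilter ι}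

lemma Gr.limit (hA : Good A) (hφ : ∀ a ∈ A, Continuous (φ a)) (hφc : Continuous φ) (hδ : 0 < δ) (hε : 0 < ε)
    (hO : IsOpen O) (hW : ∀ y ∈ closure W1, y ∉ Cs φ m ε δ n)
    {u : ι → X} {v : ι → Y} {x0 : X} {y0 : Y} (hu : Tendsto u 𝒰 (𝓝 x0)) (hv : Tendsto v 𝒰 (𝓝 y0))
    (hG : ∀ᶠ k in (𝒰 : Filter ι), Gr φ m ε δ n O O1 W1 (u k) (v k)) : Hr φ m ε δ n O O1 W1 x0 y0 := by
  have hy0 : y0 ∈ closure W1 := mem_closure_of_tendsto hv (hG.mono fun k hk => hk.2.1)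
  have hCev : ∀ᶠ k in (𝒰 : Filter ι), v k ∈ Cs φ m ε δ (n + 1) := hG.mono fun k hk => hk.2.2.1
  refine ⟨mem_closure_of_tendsto hu (hG.mono fun k hk => hk.1), hy0,
    (isClosed_Cs hA hφ hφc hδ _).mem_of_tendsto hv hCev, ?_, ?_⟩
  · obtain ⟨w0, hw0, hB⟩ := big_usc hA hφ hφc hδ hv hCev (hW y0 hy0) (t := 20 * ε) (by linarith)
      (w := u) (hG.mono fun k hk => hk.2.2.2.1)
    rw [tendsto_nhds_unique hu hw0]
    exact hB.mono (by linarith)
  · intro x' hx' hne hB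
    obtain ⟨w, hw, hwB⟩ := big_lsc hA hφ hφc hδ hε hv hCev (hW y0 hy0) (t := 12 * ε) (by linarith) hB
    have h1 : ∀ᶠ k in (𝒰 : Filter ι), w k ∈ O := hw.eventually (hO.mem_nhds hx')
    have h2 : ∀ᶠ k in (𝒰 : Filter ι), w k ≠ u k := ev_ne hw hu hne
    obtain ⟨k, ⟨⟨h3, h4⟩, h5⟩, h6⟩ := (((h1.and h2).and hwB).and hG).exists
    exact h6.2.2.2.2 _ h3 h4 (h5.mono (by linarith))

lemma Hr.proper (hA : Good A) (hφ : ∀ a ∈ A, Continuous (φ a)) (hφc : Continuous φ) (hδ : 0 < δ) (hε : 0 < ε)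
    (hW : ∀ y ∈ closure W1, y ∉ Cs φ m ε δ n)
    {u : ι → X} {v : ι → Y} {y0 : Y} (hv : Tendsto v 𝒰 (𝓝 y0))
    (hG : ∀ᶠ k in (𝒰 : Filter ι), Hr φ m ε δ n O O1 W1 (u k) (v k)) : ∃ x0, Tendsto u 𝒰 (𝓝 x0) := by
  have hy0 : y0 ∈ closure W1 := by
    have := mem_closure_of_tendsto hv (hG.mono fun k hk => hk.2.1)
    rwa [closure_closure] at this
  obtain ⟨w0, hw0, -⟩ := big_usc hA hφ hφc hδ hv (hG.mono fun k hk => hk.2.2.1) (hW y0 hy0) (t := 17 * ε)
    (by linarith) (w := u) (hG.mono fun k hk => hk.2.2.2.1)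
  exact ⟨w0, hw0⟩

omit [T2Space X] in
lemma Hr.inj (hε : 0 < ε) (hO : closure O1 ⊆ O) {x x' : X} {y : Y} (h : Hr φ m ε δ n O O1 W1 x y)
    (h' : Hr φ m ε δ n O O1 W1 x' y) : x = x' := by
  by_contra hne
  exact h.2.2.2.2 x' (hO h'.1) (fun h => hne h.symm) (h'.2.2.2.1.mono (by linarith))

end rel

end Pool.Agent.Helper27.AD
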