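import Mathlib

set_option autoImplicit false

namespace Pool.Agent.Helper27.AD

open Set Topology Filter

/-- covering dimension at most n, by finite open covers -/
def DimLE (n : ℕ) (Z : Type*) [TopologicalSpace Z] : Prop :=
  ∀ (k : ℕ) (U : Fin k → Set Z), (∀ i, IsOpen (U i)) → (⋃ i, U i) = univ →
    ∃ (m : ℕ) (V : Fin m → Set Z), (∀ j, IsOpen (V j)) ∧ (⋃ j, V j) = univ ∧ (∀ j, ∃ i, V j ⊆ U i) ∧
      ∀ s : Finset (Fin m), s.card = n + 2 → (⋂ j ∈ s, V j) = ∅

lemma DimLE.shrink {n : ℕ} {Z : Type*} [TopologicalSpace Z] (h : DimLE n Z) {k : ℕ} (U : Fin k → Set Z)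
    (hU : ∀ i, IsOpen (U i)) (hc : (⋃ i, U i) = univ) :
    ∃ V : Fin k → Set Z, (∀ i, IsOpen (V i)) ∧ (∀ i, V i ⊆ U i) ∧ (⋃ i, V i) = univ ∧
      ∀ s : Finset (Fin k), s.card = n + 2 → (⋂ j ∈ s, V j) = ∅ := by
  obtain ⟨m, V, hV, hVc, hr, ho⟩ := h k U hU hc
  choose c hcU using hr
  refine ⟨fun i => ⋃ j, ⋃ (_ : c j = i), V j, fun i => isOpen_iUnion fun j => isOpen_iUnion fun _ => hV j,
    fun i => iUnion_subset fun j => iUnion_subset fun hj => hj ▸ hcU j, ?_, ?_⟩
  · refine eq_univ_of_forall fun z => ?_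
    have hz : z ∈ ⋃ j, V j := hVc ▸ mem_univ z
    obtain ⟨j, hj⟩ := mem_iUnion.1 hz
    exact mem_iUnion.2 ⟨c j, mem_iUnion.2 ⟨j, mem_iUnion.2 ⟨rfl, hj⟩⟩⟩
  · intro s hs
    refine eq_empty_of_forall_notMem fun z hz => ?_
    have h1 : ∀ i ∈ s, ∃ j, c j = i ∧ z ∈ V j := by
      intro i hi
      have := mem_iInter₂.1 hz i hi
      obtain ⟨j, hj⟩ := mem_iUnion.1 this
      obtain ⟨hj1, hj2⟩ := mem_iUnion.1 hj
      exact ⟨j, hj1, hj2⟩
    choose g hg1 hg2 using h1
    have hinj : Function.Injective (fun i : {i // i ∈ s} => g i.1 i.2) := by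
      intro a b hab
      apply Subtype.ext
      rw [← hg1 a.1 a.2, ← hg1 b.1 b.2]
      exact congrArg c hab
    have hcard : (s.attach.image (fun i => g i.1 i.2)).card = n + 2 := by
      rw [Finset.card_image_of_injective _ hinj, Finset.card_attach, hs]
    have := ho _ hcard
    have hz2 : z ∈ ⋂ j ∈ s.attach.image (fun i => g i.1 i.2), V j := by
      refine mem_iInter₂.2 fun j hj => ?_
      obtain ⟨i, hi, rfl⟩ := Finset.mem_image.1 hj
      exact hg2 i.1 i.2
    rw [this] at hz2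
    exact hz2

lemma DimLE.of_isClosedEmbedding {n : ℕ} {Z P : Type*} [TopologicalSpace Z] [TopologicalSpace P]
    (h : DimLE n Z) {e : P → Z} (he : IsClosedEmbedding e) : DimLE n P := by
  intro k U hU hc
  rcases isEmpty_or_nonempty P with hP | hP
  · refine ⟨0, fun _ => ∅, fun j => j.elim0, Subsingleton.elim _ _, fun j => j.elim0, ?_⟩
    intro s _
    exact Subsingleton.elim _ _
  · have h1 : ∀ i, ∃ O : Set Z, IsOpen O ∧ e ⁻¹' O = U i := fun i =>
      he.isInducing.isOpen_iff.1 (hU i)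
    choose O hO hOe using h1
    obtain ⟨m, V, hV, hVc, hr, ho⟩ := h k (fun i => O i ∪ (range e)ᶜ)
      (fun i => (hO i).union he.isClosed_range.isOpen_compl) (by
        refine eq_univ_of_forall fun z => ?_
        by_cases hz : z ∈ range e
        · obtain ⟨p, rfl⟩ := hz
          have hp : p ∈ ⋃ i, U i := hc ▸ mem_univ p
          obtain ⟨i, hi⟩ := mem_iUnion.1 hp
          refine mem_iUnion.2 ⟨i, Or.inl ?_⟩
          rw [← hOe] at hi
          exact hi
        · obtain ⟨p⟩ := hP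
          have hp : p ∈ ⋃ i, U i := hc ▸ mem_univ p
          obtain ⟨i, hi⟩ := mem_iUnion.1 hp
          exact mem_iUnion.2 ⟨i, Or.inr hz⟩)
    refine ⟨m, fun j => e ⁻¹' (V j), fun j => (hV j).preimage he.continuous, ?_, ?_, ?_⟩
    · rw [← preimage_iUnion, hVc, preimage_univ]
    · intro j
      obtain ⟨i, hi⟩ := hr j
      refine ⟨i, fun p hp => ?_⟩
      rw [← hOe]
      rcases hi hp with h2 | h2
      · exact h2
      · exact absurd (mem_range_self p) h2
    · intro s hs
      have := ho s hs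
      rw [← preimage_iInter₂, this, preimage_empty]

lemma shrink_step {n : ℕ} {Z P : Type*} [TopologicalSpace Z] [NormalSpace Z] [TopologicalSpace P]
    (h : DimLE n P) {e : P → Z} (he : IsClosedEmbedding e) {k : ℕ} (U : Fin k → Set Z)
    (hU : ∀ i, IsOpen (U i)) (hc : (⋃ i, U i) = univ) :
    ∃ W : Fin k → Set Z, (∀ i, IsOpen (W i)) ∧ (⋃ i, W i) = univ ∧ (∀ i, closure (W i) ⊆ U i) ∧
      ∀ s : Finset (Fin k), s.card = n + 2 → ∀ p : P, ∃ i ∈ s, e p ∉ closure (W i) := by
  obtain ⟨G, hG, hGU, hGc, hGo⟩ := h.shrink (fun i => e ⁻¹' (U i)) (fun i => (hU i).preimage he.continuous) (by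
    rw [← preimage_iUnion, hc, preimage_univ])
  have h1 : ∀ i, ∃ O : Set Z, IsOpen O ∧ e ⁻¹' O = G i := fun i =>
      he.isInducing.isOpen_iff.1 (hG i)
  choose O hO hOe using h1
  have hcl : IsOpen (range e)ᶜ := he.isClosed_range.isOpen_compl
  obtain ⟨W, hWc, hW, hWU⟩ := exists_iUnion_eq_closure_subset
    (u := fun i => U i ∩ (O i ∪ (range e)ᶜ)) (fun i => (hU i).inter ((hO i).union hcl))
    (fun x => Set.toFinite _) (by
      refine eq_univ_of_forall fun z => ?_
      by_cases hz : z ∈ range e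
      · obtain ⟨p, rfl⟩ := hz
        have hp : p ∈ ⋃ i, G i := hGc ▸ mem_univ p
        obtain ⟨i, hi⟩ := mem_iUnion.1 hp
        refine mem_iUnion.2 ⟨i, hGU i hi, Or.inl ?_⟩
        rw [← hOe] at hi
        exact hi
      · have hp : z ∈ ⋃ i, U i := hc ▸ mem_univ z
        obtain ⟨i, hi⟩ := mem_iUnion.1 hp
        exact mem_iUnion.2 ⟨i, hi, Or.inr hz⟩)
  refine ⟨W, hW, hWc, fun i => (hWU i).trans inter_subset_left, ?_⟩
  intro s hs p
  by_contra hcon
  push Not at hcon
  have : p ∈ ⋂ j ∈ s, G j := by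
    refine mem_iInter₂.2 fun j hj => ?_
    have h2 := (hWU j (hcon j hj)).2
    rw [← hOe]
    rcases h2 with h2 | h2
    · exact h2
    · exact absurd (mem_range_self p) h2
  rw [hGo s hs] at this
  exact this

lemma swell {n : ℕ} {Z : Type*} [TopologicalSpace Z] [NormalSpace Z] {k : ℕ} (C U : Fin k → Set Z)
    (hC : ∀ i, IsClosed (C i)) (hU : ∀ i, IsOpen (U i)) (hCU : ∀ i, C i ⊆ U i)
    (ho : ∀ s : Finset (Fin k), s.card = n + 2 → (⋂ j ∈ s, C j) = ∅) :
    ∃ W : Fin k → Set Z, (∀ i, IsOpen (W i)) ∧ (∀ i, C i ⊆ W i) ∧ (∀ i, W i ⊆ U i) ∧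
      ∀ s : Finset (Fin k), s.card = n + 2 → (⋂ j ∈ s, W j) = ∅ := by
  have h1 : ∀ s : Finset (Fin k), s.card = n + 2 → ∃ O : Fin k → Set Z, (∀ i, IsOpen (O i)) ∧
      (∀ i, C i ⊆ O i) ∧ (⋂ j ∈ s, O j) = ∅ := by
    intro s hs
    obtain ⟨v, hv1, hv2, hv3⟩ := exists_iUnion_eq_closed_subset
      (u := fun i : {j // j ∈ s} => (C i)ᶜ) (fun i => (hC i).isOpen_compl) (fun x => Set.toFinite _) (by
        refine eq_univ_of_forall fun z => ?_
        by_contra hz
        have : z ∈ ⋂ j ∈ s, C j := by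
          refine mem_iInter₂.2 fun j hj => ?_
          by_contra hj2
          exact hz (mem_iUnion.2 ⟨⟨j, hj⟩, hj2⟩)
        rw [ho s hs] at this
        exact this)
    refine ⟨fun j => if hj : j ∈ s then (v ⟨j, hj⟩)ᶜ else univ, ?_, ?_, ?_⟩
    · intro j
      by_cases hj : j ∈ s
      · simp only [hj, dif_pos]
        exact (hv2 _).isOpen_compl
      · simp only [hj, dif_neg, not_false_eq_true]
        exact isOpen_univ
    · intro j
      by_cases hj : j ∈ s
      · simp only [hj, dif_pos]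
        exact subset_compl_comm.1 (hv3 ⟨j, hj⟩)
      · simp only [hj, dif_neg, not_false_eq_true]
        exact subset_univ _
    · refine eq_empty_of_forall_notMem fun z hz => ?_
      have hz2 : z ∈ iUnion v := hv1 ▸ mem_univ z
      obtain ⟨⟨j, hj⟩, hj2⟩ := mem_iUnion.1 hz2
      have := mem_iInter₂.1 hz j hj
      simp only [hj, dif_pos] at this
      exact this hj2
  choose! O hO1 hO2 hO3 using h1
  refine ⟨fun j => U j ∩ ⋂ s : Finset (Fin k), ⋂ (_ : s.card = n + 2), O s j, ?_, ?_, ?_, ?_⟩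
  · intro j
    refine (hU j).inter ?_
    refine isOpen_iInter_of_finite fun s => ?_
    by_cases hs : s.card = n + 2
    · simp only [hs, iInter_true]
      exact hO1 s hs j
    · simp only [hs, iInter_of_empty, isOpen_univ]
  · intro j
    refine subset_inter (hCU j) (subset_iInter₂ fun s hs => hO2 s hs j)
  · exact fun j => inter_subset_left
  · intro s hs
    refine eq_empty_of_forall_notMem fun z hz => ?_
    have : z ∈ ⋂ j ∈ s, O s j := by
      refine mem_iInter₂.2 fun j hj => ?_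
      exact mem_iInter₂.1 (mem_iInter₂.1 hz j hj).2 s hs
    rw [hO3 s hs] at this
    exact this

theorem DimLE.sum_nat {n : ℕ} {Z : Type*} [TopologicalSpace Z] [NormalSpace Z] {P : ℕ → Type*}
    [∀ i, TopologicalSpace (P i)] (e : ∀ i, P i → Z) (he : ∀ i, IsClosedEmbedding (e i))
    (hcov : (⋃ i, range (e i)) = univ) (h : ∀ i, DimLE n (P i)) : DimLE n Z := by
  intro k U hU hc
  let T : Type _ := {W : Fin k → Set Z // (∀ i, IsOpen (W i)) ∧ (⋃ i, W i) = univ}
  have hstep : ∀ (i : ℕ) (W : T), ∃ W' : T, (∀ j, closure (W'.1 j) ⊆ W.1 j) ∧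
      ∀ s : Finset (Fin k), s.card = n + 2 → ∀ p : P i, ∃ j ∈ s, e i p ∉ closure (W'.1 j) := by
    intro i W
    obtain ⟨W', h1, h2, h3, h4⟩ := shrink_step (h i) (he i) W.1 W.2.1 W.2.2
    exact ⟨⟨W', h1, h2⟩, h3, h4⟩
  choose st hst1 hst2 using hstep
  let S : ℕ → T := fun i => Nat.rec ⟨U, hU, hc⟩ (fun i W => st i W) i
  have hS0 : S 0 = ⟨U, hU, hc⟩ := rfl
  have hSs : ∀ i, S (i + 1) = st i (S i) := fun i => rfl
  have hcl : ∀ i j, closure ((S (i + 1)).1 j) ⊆ (S i).1 j := fun i j => by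
    rw [hSs]; exact hst1 i (S i) j
  have hanti : ∀ j, Antitone fun i => (S i).1 j := fun j =>
    antitone_nat_of_succ_le fun i => subset_closure.trans (hcl i j)
  obtain ⟨W, hW1, hW2, hW3, hW4⟩ := swell (n := n) (fun j => ⋂ i, closure ((S (i + 1)).1 j)) U
    (fun j => isClosed_iInter fun i => isClosed_closure) hU
    (fun j => (iInter_subset _ 0).trans (hcl 0 j)) (by
      intro s hs
      refine eq_empty_of_forall_notMem fun z hz => ?_
      have hz2 : z ∈ ⋃ i, range (e i) := hcov ▸ mem_univ z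
      obtain ⟨i, p, rfl⟩ := mem_iUnion.1 hz2
      obtain ⟨j, hj, hj2⟩ := hst2 i (S i) s hs p
      exact hj2 (mem_iInter.1 (mem_iInter₂.1 hz j hj) i))
  refine ⟨k, W, hW1, ?_, fun j => ⟨j, hW3 j⟩, hW4⟩
  refine eq_univ_of_forall fun z => ?_
  have h1 : ∀ i, ∃ j, z ∈ (S i).1 j := fun i => by
    have h2 : z ∈ ⋃ j, (S i).1 j := by
      rw [(S i).2.2]
      exact mem_univ z
    exact mem_iUnion.1 h2
  choose J hJ using h1
  obtain ⟨j, hj⟩ := Finite.exists_infinite_fiber J
  have hinf : Set.Infinite (J ⁻¹' {j}) := Set.infinite_coe_iff.1 hj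
  refine mem_iUnion.2 ⟨j, hW2 j ?_⟩
  refine mem_iInter.2 fun i => ?_
  obtain ⟨i', hi'1, hi'2⟩ := hinf.exists_gt (i + 1)
  have : z ∈ (S i').1 j := by
    have := hJ i'
    rwa [show J i' = j from hi'1] at this
  exact subset_closure (hanti j hi'2.le this)

theorem DimLE.sum {n : ℕ} {Z ι : Type*} [Countable ι] [TopologicalSpace Z] [NormalSpace Z] {P : ι → Type*}
    [∀ i, TopologicalSpace (P i)] (e : ∀ i, P i → Z) (he : ∀ i, IsClosedEmbedding (e i))
    (hcov : (⋃ i, range (e i)) = univ) (h : ∀ i, DimLE n (P i)) : DimLE n Z := by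
  rcases isEmpty_or_nonempty ι with hι | hι
  · have hZ : IsEmpty Z := by
      refine ⟨fun z => ?_⟩
      have : z ∈ ⋃ i, range (e i) := hcov ▸ mem_univ z
      obtain ⟨i, _⟩ := mem_iUnion.1 this
      exact hι.elim i
    intro k U hU hc
    refine ⟨0, fun _ => ∅, fun j => j.elim0, Subsingleton.elim _ _, fun j => j.elim0, ?_⟩
    intro s _
    exact Subsingleton.elim _ _
  · obtain ⟨f, hf⟩ := exists_surjective_nat ι
    refine DimLE.sum_nat (P := fun i => P (f i)) (fun i => e (f i)) (fun i => he (f i)) ?_ (fun i => h (f i))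
    rw [← hcov]
    exact hf.iUnion_comp (fun i => range (e i))

/-- subspace theorem in second countable regular spaces -/
theorem DimLE.of_isEmbedding {n : ℕ} {Z M : Type*} [TopologicalSpace Z] [SecondCountableTopology Z]
    [T3Space Z] [TopologicalSpace M] (h : DimLE n Z) {e : M → Z} (he : IsEmbedding e) : DimLE n M := by
  intro k U hU hc
  have h1 : ∀ i, ∃ O : Set Z, IsOpen O ∧ e ⁻¹' O = U i := fun i =>
      he.isInducing.isOpen_iff.1 (hU i)
  choose O hO hOe using h1
  let T : Set Z := ⋃ i, O i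
  have hT : IsOpen T := isOpen_iUnion hO
  let ι : Type _ := {b : Set Z // b ∈ TopologicalSpace.countableBasis Z ∧ closure b ⊆ T}
  have : Countable ι := by
    have hc := TopologicalSpace.countable_countableBasis Z
    exact (hc.mono (fun b (hb : b ∈ {b : Set Z | b ∈ TopologicalSpace.countableBasis Z ∧ closure b ⊆ T}) => hb.1)).to_subtype
  have hd : DimLE n T := by
    refine DimLE.sum (ι := ι) (P := fun b => closure b.1)
      (fun b z => (⟨z.1, b.2.2 z.2⟩ : T)) ?_ ?_ ?_
    · intro b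
      refine IsClosedEmbedding.of_continuous_injective_isClosedMap ?_ ?_ ?_
      · exact Continuous.subtype_mk continuous_subtype_val _
      · intro z w hzw
        exact Subtype.ext (congrArg (fun t : T => t.1) hzw)
      · intro C hC
        have h2 : IsClosed (Subtype.val '' C : Set Z) := (isClosed_closure.isClosedEmbedding_subtypeVal).isClosedMap C hC
        have h3 : (fun z : closure b.1 => (⟨z.1, b.2.2 z.2⟩ : T)) '' C = Subtype.val ⁻¹' (Subtype.val '' C : Set Z) := by
          ext t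
          constructor
          · rintro ⟨z, hz, rfl⟩
            exact ⟨z, hz, rfl⟩
          · rintro ⟨z, hz, hzt⟩
            exact ⟨z, hz, Subtype.ext hzt⟩
        rw [h3]
        exact h2.preimage continuous_subtype_val
    · refine eq_univ_of_forall fun t => ?_
      obtain ⟨V, hV1, hV2⟩ := (closed_nhds_basis t.1).mem_iff.1 (hT.mem_nhds t.2) |>.imp fun _ h => h
      obtain ⟨b, hb, htb, hbV⟩ := (TopologicalSpace.isBasis_countableBasis Z).mem_nhds_iff.1 hV1.1
      have hbT : closure b ⊆ T := (closure_minimal hbV hV1.2).trans hV2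
      exact mem_iUnion.2 ⟨⟨b, hb, hbT⟩, ⟨⟨t.1, subset_closure htb⟩, rfl⟩⟩
    · intro b
      exact h.of_isClosedEmbedding (isClosed_closure.isClosedEmbedding_subtypeVal)
  obtain ⟨m, V, hV, hVc, hr, ho⟩ := hd k (fun i => Subtype.val ⁻¹' O i) (fun i => (hO i).preimage continuous_subtype_val) (by
    refine eq_univ_of_forall fun t => ?_
    obtain ⟨i, hi⟩ := mem_iUnion.1 t.2
    exact mem_iUnion.2 ⟨i, hi⟩)
  have hmT : ∀ p : M, e p ∈ T := by
    intro p
    have hp : p ∈ ⋃ i, U i := hc ▸ mem_univ p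
    obtain ⟨i, hi⟩ := mem_iUnion.1 hp
    rw [← hOe] at hi
    exact mem_iUnion.2 ⟨i, hi⟩
  let e' : M → T := fun p => ⟨e p, hmT p⟩
  have he' : Continuous e' := he.continuous.subtype_mk _
  refine ⟨m, fun j => e' ⁻¹' (V j), fun j => (hV j).preimage he', ?_, ?_, ?_⟩
  · rw [← preimage_iUnion, hVc, preimage_univ]
  · intro j
    obtain ⟨i, hi⟩ := hr j
    refine ⟨i, fun p hp => ?_⟩
    rw [← hOe]
    exact hi hp
  · intro s hs
    have := ho s hs
    rw [← preimage_iInter₂, this, preimage_empty]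

end Pool.Agent.Helper27.AD
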