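import Mathlib
import Pool.Agent.Helper27.AD.Dep
import Pool.Agent.Helper27.AD.Dim

set_option autoImplicit false

namespace Pool.Agent.Helper27.AD

open Set Topology Filter

variable {X Y : Type} [TopologicalSpace X] [TopologicalSpace Y]

/-- the set of related pairs -/
def GG (φ : (X → ℝ) ≃ₜ (Y → ℝ)) (m : ℕ) (ε δ : ℝ) (n : ℕ) (m' : ℕ) (ε' δ' : ℝ) (n' : ℕ)
    (O O1 : Set X) (W W1 : Set Y) : Set (X × Y) :=
  {p | Gr φ m ε δ n O O1 W1 p.1 p.2 ∧ Gr φ.symm m' ε' δ' n' W W1 O1 p.2 p.1}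

lemma exists_basic_shrink {Z : Type} [TopologicalSpace Z] [T3Space Z] [SecondCountableTopology Z]
    {z : Z} {N : Set Z} (hN : N ∈ 𝓝 z) :
    ∃ O ∈ TopologicalSpace.countableBasis Z, ∃ O1 ∈ TopologicalSpace.countableBasis Z,
      O ⊆ N ∧ closure O1 ⊆ O ∧ z ∈ O1 := by
  obtain ⟨O, hO, hzO, hON⟩ := (TopologicalSpace.isBasis_countableBasis Z).mem_nhds_iff.1 hN
  have hOn : O ∈ 𝓝 z := (TopologicalSpace.isOpen_of_mem_countableBasis hO).mem_nhds hzO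
  obtain ⟨V, hV1, hV2, hV3⟩ := exists_mem_nhds_isClosed_subset hOn
  obtain ⟨O1, hO1, hzO1, hO1V⟩ := (TopologicalSpace.isBasis_countableBasis Z).mem_nhds_iff.1 hV1
  exact ⟨O, hO, O1, hO1, hON, (closure_minimal hO1V hV2).trans hV3, hzO1⟩

section side

variable [T2Space X] [T2Space Y] (φ : (X → ℝ) ≃ₜ (Y → ℝ)) {A : Set (X → ℝ)} {B : Set (Y → ℝ)}
  (hA : Good A) (hB : Good B) (hAB : ∀ a ∈ A, φ a ∈ B) (hBA : ∀ b ∈ B, φ.symm b ∈ A)
  {m : ℕ} {ε δ : ℝ} {n : ℕ} {m' : ℕ} {ε' δ' : ℝ} {n' : ℕ} {O O1 : Set X} {W W1 : Set Y}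
  (hδ : 0 < δ) (hε : 0 < ε) (hδ' : 0 < δ') (hε' : 0 < ε')
  (hO : IsOpen O) (hO1 : closure O1 ⊆ O) (hW : IsOpen W) (hW1 : closure W1 ⊆ W)
  (hWn : ∀ y ∈ W, y ∉ Cs φ m ε δ n) (hOn : ∀ x ∈ O, x ∉ Cs φ.symm m' ε' δ' n')

include hA hB hAB hBA hδ hε hδ' hε' hO hO1 hW hW1 hWn hOn

lemma closure_GG (p : X × Y) (hp : p ∈ closure (GG φ m ε δ n m' ε' δ' n' O O1 W W1)) :
    Hr φ m ε δ n O O1 W1 p.1 p.2 ∧ Hr φ.symm m' ε' δ' n' W W1 O1 p.2 p.1 := by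
  obtain ⟨u, hu1, hu2⟩ := mem_closure_iff_ultrafilter.1 hp
  have h1 : Tendsto Prod.fst u (𝓝 p.1) := (continuous_fst.tendsto p).mono_left hu2
  have h2 : Tendsto Prod.snd u (𝓝 p.2) := (continuous_snd.tendsto p).mono_left hu2
  have h3 : ∀ᶠ q in (u : Filter (X × Y)), q ∈ GG φ m ε δ n m' ε' δ' n' O O1 W W1 := hu1
  refine ⟨?_, ?_⟩
  · exact Gr.limit hA (fun a ha => hB.cont _ (hAB a ha)) φ.continuous hδ hε hO
      (fun y hy => hWn y (hW1 hy)) h1 h2 (h3.mono fun q hq => hq.1)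
  · exact Gr.limit hB (fun a ha => hA.cont _ (hBA a ha)) φ.symm.continuous hδ' hε' hW
      (fun y hy => hOn y (hO1 hy)) h2 h1 (h3.mono fun q hq => hq.2)

lemma emb_snd : IsClosedEmbedding
    (fun p : (closure (GG φ m ε δ n m' ε' δ' n' O O1 W W1) : Set (X × Y)) => p.1.2) := by
  have hcl := closure_GG φ hA hB hAB hBA hδ hε hδ' hε' hO hO1 hW hW1 hWn hOn
  have hcont : Continuous (fun p : (closure (GG φ m ε δ n m' ε' δ' n' O O1 W W1) : Set (X × Y)) => p.1.2) :=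
    continuous_snd.comp continuous_subtype_val
  refine IsClosedEmbedding.of_continuous_injective_isClosedMap hcont ?_ ?_
  · rintro ⟨⟨x, y⟩, hp⟩ ⟨⟨x', y'⟩, hp'⟩ heq
    simp only at heq
    subst heq
    have := Hr.inj hε hO1 (hcl _ hp).1 (hcl _ hp').1
    simp only at this
    subst this
    rfl
  · refine IsProperMap.isClosedMap ?_
    rw [isProperMap_iff_ultrafilter]
    refine ⟨hcont, fun 𝒰 y hy => ?_⟩
    obtain ⟨x0, hx0⟩ := Hr.proper hA (fun a ha => hB.cont _ (hAB a ha)) φ.continuous hδ hε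
      (fun y hy => hWn y (hW1 hy)) (𝒰 := 𝒰)
      (u := fun p : (closure (GG φ m ε δ n m' ε' δ' n' O O1 W W1) : Set (X × Y)) => p.1.1)
      (v := fun p => p.1.2) hy (Filter.Eventually.of_forall fun p => (hcl p.1 p.2).1)
    have hT : Tendsto (fun p : (closure (GG φ m ε δ n m' ε' δ' n' O O1 W W1) : Set (X × Y)) => p.1)
      𝒰 (𝓝 (x0, y)) := by
      have := hx0.prodMk_nhds hy
      exact this
    have hmem : (x0, y) ∈ closure (GG φ m ε δ n m' ε' δ' n' O O1 W W1) :=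
      isClosed_closure.mem_of_tendsto hT (Filter.Eventually.of_forall fun p => p.2)
    refine ⟨⟨(x0, y), hmem⟩, rfl, ?_⟩
    have h4 : Tendsto id 𝒰.toFilter (𝓝 (⟨(x0, y), hmem⟩ : (closure (GG φ m ε δ n m' ε' δ' n' O O1 W W1) : Set (X × Y)))) :=
      tendsto_subtype_rng.2 hT
    exact h4

lemma emb_fst : IsClosedEmbedding
    (fun p : (closure (GG φ m ε δ n m' ε' δ' n' O O1 W W1) : Set (X × Y)) => p.1.1) := by
  have hcl := closure_GG φ hA hB hAB hBA hδ hε hδ' hε' hO hO1 hW hW1 hWn hOn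
  have hcont : Continuous (fun p : (closure (GG φ m ε δ n m' ε' δ' n' O O1 W W1) : Set (X × Y)) => p.1.1) :=
    continuous_fst.comp continuous_subtype_val
  refine IsClosedEmbedding.of_continuous_injective_isClosedMap hcont ?_ ?_
  · rintro ⟨⟨x, y⟩, hp⟩ ⟨⟨x', y'⟩, hp'⟩ heq
    simp only at heq
    subst heq
    have := Hr.inj hε' hW1 (hcl _ hp).2 (hcl _ hp').2
    simp only at this
    subst this
    rfl
  · refine IsProperMap.isClosedMap ?_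
    rw [isProperMap_iff_ultrafilter]
    refine ⟨hcont, fun 𝒰 x hx => ?_⟩
    obtain ⟨y0, hy0⟩ := Hr.proper hB (fun a ha => hA.cont _ (hBA a ha)) φ.symm.continuous hδ' hε'
      (fun y hy => hOn y (hO1 hy)) (𝒰 := 𝒰)
      (u := fun p : (closure (GG φ m ε δ n m' ε' δ' n' O O1 W W1) : Set (X × Y)) => p.1.2)
      (v := fun p => p.1.1) hx (Filter.Eventually.of_forall fun p => (hcl p.1 p.2).2)
    have hT : Tendsto (fun p : (closure (GG φ m ε δ n m' ε' δ' n' O O1 W W1) : Set (X × Y)) => p.1)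
      𝒰 (𝓝 (x, y0)) := by
      have := hx.prodMk_nhds hy0
      exact this
    have hmem : (x, y0) ∈ closure (GG φ m ε δ n m' ε' δ' n' O O1 W W1) :=
      isClosed_closure.mem_of_tendsto hT (Filter.Eventually.of_forall fun p => p.2)
    refine ⟨⟨(x, y0), hmem⟩, rfl, ?_⟩
    have h4 : Tendsto id 𝒰.toFilter (𝓝 (⟨(x, y0), hmem⟩ : (closure (GG φ m ε δ n m' ε' δ' n' O O1 W W1) : Set (X × Y)))) :=
      tendsto_subtype_rng.2 hT
    exact h4

end side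

omit [TopologicalSpace X] [TopologicalSpace Y] in
/-- minimal number of control points -/
lemma exists_min_control {φ : (X → ℝ) → (Y → ℝ)} (hφc : Continuous φ) {m : ℕ} {i : ℕ}
    {x0 : X} {y0 : Y} (hb : Big φ m (20 * (1 / ((i : ℝ) + 1))) x0 y0) :
    ∃ (j n : ℕ), y0 ∈ Cs φ m (1 / ((i : ℝ) + 1)) (1 / ((j : ℝ) + 1)) (n + 1) ∧
      y0 ∉ Cs φ m (1 / ((i : ℝ) + 1)) (1 / ((j : ℝ) + 1)) n := by
  classical
  have hε : (0 : ℝ) < 1 / ((i : ℝ) + 1) := by positivity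
  obtain ⟨N, j, hN⟩ := heine hφc m hε y0
  have hex : ∃ N, y0 ∈ Cs φ m (1 / ((i : ℝ) + 1)) (1 / ((j : ℝ) + 1)) N := ⟨N, hN⟩
  have h1 := Nat.find_spec hex
  have h2 : Nat.find hex ≠ 0 := by
    intro h0
    rw [h0] at h1
    obtain ⟨z, hz⟩ := h1
    obtain ⟨k, _⟩ := hz.not_big (by positivity) (by linarith) hb
    exact k.elim0
  obtain ⟨n, hn⟩ := Nat.exists_eq_succ_of_ne_zero h2
  refine ⟨j, n, ?_, ?_⟩
  · rw [hn] at h1
    exact h1
  · exact Nat.find_min hex (by omega)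

omit [TopologicalSpace X] [TopologicalSpace Y] in
lemma big_finite {φ : (X → ℝ) → (Y → ℝ)} {m : ℕ} {ε δ : ℝ} (hδ : 0 < δ) (hε : 0 < ε) {n : ℕ} {y0 : Y}
    (h : y0 ∈ Cs φ m ε δ n) : {x | Big φ m (10 * ε) x y0}.Finite := by
  obtain ⟨z, hz⟩ := h
  refine (Set.finite_range z).subset fun x hx => ?_
  exact hz.not_big hδ (by linarith) hx

/-- the countable decomposition -/
theorem pieces [T3Space X] [T3Space Y] [SecondCountableTopology X] [SecondCountableTopology Y]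
    (φ : (X → ℝ) ≃ₜ (Y → ℝ)) {A : Set (X → ℝ)} {B : Set (Y → ℝ)}
    (hA : Good A) (hB : Good B) (hAB : ∀ a ∈ A, φ a ∈ B) (hBA : ∀ b ∈ B, φ.symm b ∈ A) :
    ∃ (π : Type) (_ : Countable π) (P : π → Set (X × Y)),
      (∀ i, IsClosedEmbedding (fun p : P i => p.1.1)) ∧ (∀ i, IsClosedEmbedding (fun p : P i => p.1.2)) ∧
      (⋃ i, range (fun p : P i => p.1.2)) = univ := by
  classical
  let BX := TopologicalSpace.countableBasis X
  let BY := TopologicalSpace.countableBasis Y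
  have : Countable BX := (TopologicalSpace.countable_countableBasis X).to_subtype
  have : Countable BY := (TopologicalSpace.countable_countableBasis Y).to_subtype
  let τ : Type := ((ℕ × ℕ × ℕ × ℕ) × (ℕ × ℕ × ℕ × ℕ)) × ((BX × BX) × (BY × BY))
  let ok : τ → Prop := fun q =>
    closure q.2.1.2.1 ⊆ q.2.1.1.1 ∧ closure q.2.2.2.1 ⊆ q.2.2.1.1 ∧
    (∀ y ∈ q.2.2.1.1, y ∉ Cs φ q.1.1.1 (1 / ((q.1.1.2.1 : ℝ) + 1)) (1 / ((q.1.1.2.2.1 : ℝ) + 1)) q.1.1.2.2.2) ∧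
    (∀ x ∈ q.2.1.1.1, x ∉ Cs φ.symm q.1.2.1 (1 / ((q.1.2.2.1 : ℝ) + 1)) (1 / ((q.1.2.2.2.1 : ℝ) + 1)) q.1.2.2.2.2)
  refine ⟨{q : τ // ok q}, inferInstance, fun q => closure (GG φ q.1.1.1.1 (1 / ((q.1.1.1.2.1 : ℝ) + 1))
    (1 / ((q.1.1.1.2.2.1 : ℝ) + 1)) q.1.1.1.2.2.2 q.1.1.2.1 (1 / ((q.1.1.2.2.1 : ℝ) + 1))
    (1 / ((q.1.1.2.2.2.1 : ℝ) + 1)) q.1.1.2.2.2.2 q.1.2.1.1.1 q.1.2.1.2.1 q.1.2.2.1.1 q.1.2.2.2.1), ?_, ?_, ?_⟩
  · rintro ⟨q, h1, h2, h3, h4⟩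
    exact emb_fst φ hA hB hAB hBA (by positivity) (by positivity) (by positivity) (by positivity)
      (TopologicalSpace.isOpen_of_mem_countableBasis q.2.1.1.2) h1
      (TopologicalSpace.isOpen_of_mem_countableBasis q.2.2.1.2) h2 h3 h4
  · rintro ⟨q, h1, h2, h3, h4⟩
    exact emb_snd φ hA hB hAB hBA (by positivity) (by positivity) (by positivity) (by positivity)
      (TopologicalSpace.isOpen_of_mem_countableBasis q.2.1.1.2) h1
      (TopologicalSpace.isOpen_of_mem_countableBasis q.2.2.1.2) h2 h3 h4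
  · refine eq_univ_of_forall fun y0 => ?_
    obtain ⟨x0, hd1, hd2⟩ := exists_partner φ y0
    obtain ⟨m, t, ht, hb⟩ := big_of_dep φ.continuous hd1
    obtain ⟨m', t', ht', hb'⟩ := big_of_dep φ.symm.continuous hd2
    have hsmall : ∀ t : ℝ, 0 < t → ∃ i : ℕ, 20 * (1 / ((i : ℝ) + 1)) ≤ t := by
      intro t ht
      obtain ⟨i, hi⟩ := exists_nat_one_div_lt (show 0 < t / 20 by linarith)
      exact ⟨i, by linarith⟩
    obtain ⟨i, hi⟩ := hsmall t ht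
    obtain ⟨i', hi'⟩ := hsmall t' ht'
    replace hb := hb.mono hi
    replace hb' := hb'.mono hi'
    obtain ⟨j, n, hn1, hn2⟩ := exists_min_control φ.continuous hb
    obtain ⟨j', n', hn1', hn2'⟩ := exists_min_control φ.symm.continuous hb'
    have hε : (0 : ℝ) < 1 / ((i : ℝ) + 1) := by positivity
    have hε' : (0 : ℝ) < 1 / ((i' : ℝ) + 1) := by positivity
    have hδ : (0 : ℝ) < 1 / ((j : ℝ) + 1) := by positivity
    have hδ' : (0 : ℝ) < 1 / ((j' : ℝ) + 1) := by positivity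
    have hf1 := big_finite hδ hε hn1
    have hf2 := big_finite hδ' hε' hn1'
    have hN1 : (Cs φ.symm m' (1 / ((i' : ℝ) + 1)) (1 / ((j' : ℝ) + 1)) n')ᶜ ∩
        ({x | Big φ m (10 * (1 / ((i : ℝ) + 1))) x y0} \ {x0})ᶜ ∈ 𝓝 x0 := by
      refine inter_mem ?_ ?_
      · exact (isClosed_Cs hB (fun a ha => hA.cont _ (hBA a ha)) φ.symm.continuous hδ' _).isOpen_compl.mem_nhds hn2'
      · exact (hf1.sdiff).isClosed.isOpen_compl.mem_nhds (fun h => h.2 rfl)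
    have hN2 : (Cs φ m (1 / ((i : ℝ) + 1)) (1 / ((j : ℝ) + 1)) n)ᶜ ∩
        ({y | Big φ.symm m' (10 * (1 / ((i' : ℝ) + 1))) y x0} \ {y0})ᶜ ∈ 𝓝 y0 := by
      refine inter_mem ?_ ?_
      · exact (isClosed_Cs hA (fun a ha => hB.cont _ (hAB a ha)) φ.continuous hδ _).isOpen_compl.mem_nhds hn2
      · exact (hf2.sdiff).isClosed.isOpen_compl.mem_nhds (fun h => h.2 rfl)
    obtain ⟨O, hO, O1, hO1, hON, hcO, hxO⟩ := exists_basic_shrink hN1
    obtain ⟨W, hW, W1, hW1, hWN, hcW, hyW⟩ := exists_basic_shrink hN2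
    refine mem_iUnion.2 ⟨⟨(((m, i, j, n), (m', i', j', n')), ((⟨O, hO⟩, ⟨O1, hO1⟩), (⟨W, hW⟩, ⟨W1, hW1⟩))),
      hcO, hcW, fun y hy => (hWN hy).1, fun x hx => (hON hx).1⟩, ⟨⟨(x0, y0), subset_closure ?_⟩, rfl⟩⟩
    refine ⟨⟨hxO, hyW, hn1, hb, ?_⟩, ⟨hyW, hxO, hn1', hb', ?_⟩⟩
    · intro x' hx' hne hbig
      exact (hON hx').2 ⟨hbig, hne⟩
    · intro y' hy' hne hbig
      exact (hWN hy').2 ⟨hbig, hne⟩

/-- dimension does not grow -/
theorem dim_transfer [T3Space X] [T3Space Y] [SecondCountableTopology X] [SecondCountableTopology Y]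
    (φ : (X → ℝ) ≃ₜ (Y → ℝ)) {A : Set (X → ℝ)} {B : Set (Y → ℝ)}
    (hA : Good A) (hB : Good B) (hAB : ∀ a ∈ A, φ a ∈ B) (hBA : ∀ b ∈ B, φ.symm b ∈ A) {n : ℕ}
    (h : DimLE n X) : DimLE n Y := by
  obtain ⟨π, hπ, P, h1, h2, h3⟩ := pieces φ hA hB hAB hBA
  exact DimLE.sum (P := fun i => P i) (fun i (p : P i) => p.1.2) h2 h3 (fun i => h.of_isClosedEmbedding (h1 i))

end Pool.Agent.Helper27.AD
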