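import Mathlib
import Pool.Agent.Helper27.AD.Core

set_option autoImplicit false

namespace Pool.Agent.Helper27.AD

open Set Topology Filter

/-- a lattice ring of functions with rational constants -/
structure LR {Z : Type*} (A : Set (Z → ℝ)) : Prop where
  add : ∀ a ∈ A, ∀ b ∈ A, (fun z => a z + b z) ∈ A
  mul : ∀ a ∈ A, ∀ b ∈ A, (fun z => a z * b z) ∈ A
  sup : ∀ a ∈ A, ∀ b ∈ A, (fun z => max (a z) (b z)) ∈ A
  const : ∀ q : ℚ, (fun _ => (q : ℝ)) ∈ A

section alg

variable {Z : Type*} {A : Set (Z → ℝ)}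

lemma LR.neg (h : LR A) {a : Z → ℝ} (ha : a ∈ A) : (fun z => - a z) ∈ A := by
  have := h.mul _ (h.const (-1)) a ha
  simpa using this

lemma LR.sub (h : LR A) {a b : Z → ℝ} (ha : a ∈ A) (hb : b ∈ A) : (fun z => a z - b z) ∈ A := by
  have := h.add a ha _ (h.neg hb)
  simpa [sub_eq_add_neg] using this

lemma LR.inf (h : LR A) {a b : Z → ℝ} (ha : a ∈ A) (hb : b ∈ A) : (fun z => min (a z) (b z)) ∈ A := by
  have := h.neg (h.sup _ (h.neg ha) _ (h.neg hb))
  have h2 : (fun z => - max (- a z) (- b z)) = fun z => min (a z) (b z) := by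
    funext z
    rw [max_neg_neg, neg_neg]
  rw [h2] at this
  exact this

lemma LR.abs (h : LR A) {a : Z → ℝ} (ha : a ∈ A) : (fun z => |a z|) ∈ A :=
  h.sup _ ha _ (h.neg ha)

/-- clamping to the unit interval -/
lemma LR.clamp (h : LR A) {a : Z → ℝ} (ha : a ∈ A) : (fun z => max 0 (min 1 (a z))) ∈ A := by
  have h0 : (fun _ => (0 : ℝ)) ∈ A := by simpa using h.const 0
  have h1 : (fun _ => (1 : ℝ)) ∈ A := by simpa using h.const 1
  exact h.sup _ h0 _ (h.inf h1 ha)

variable [TopologicalSpace Z]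

/-- the family generates the topology -/
def Gen (A : Set (Z → ℝ)) : Prop :=
  ∀ (z : Z) (V : Set Z), IsOpen V → z ∈ V → ∃ (I : Finset (Z → ℝ)) (η : ℝ), 0 < η ∧ (∀ a ∈ I, a ∈ A) ∧
    ∀ w, (∀ a ∈ I, |a w - a z| < η) → w ∈ V

/-- cut-off functions at a point -/
lemma LR.cutoff (h : LR A) (hg : Gen A) (z : Z) (V : Set Z) (hV : IsOpen V) (hz : z ∈ V) :
    ∃ f ∈ A, (∀ w, 0 ≤ f w) ∧ (∀ w, f w ≤ 1) ∧ f z = 1 ∧ ∀ w, w ∉ V → f w = 0 := by
  classical
  obtain ⟨I, η, hη, hI, hsub⟩ := hg z V hV hz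
  obtain ⟨ρ, hρ0, hρη⟩ : ∃ ρ : ℚ, (0 : ℝ) < ρ ∧ 3 * (ρ : ℝ) < η := by
    obtain ⟨ρ, h1, h2⟩ := exists_rat_btwn (show (0 : ℝ) < η / 3 by linarith)
    exact ⟨ρ, h1, by linarith⟩
  have key : ∀ J : Finset (Z → ℝ), (∀ a ∈ J, a ∈ A) → ∃ f ∈ A, (∀ w, 0 ≤ f w) ∧ (∀ w, f w ≤ 1) ∧ f z = 1 ∧
      ∀ w, (∃ a ∈ J, η ≤ |a w - a z|) → f w = 0 := by
    intro J
    induction J using Finset.induction_on with
    | empty =>
      intro _
      refine ⟨fun _ => 1, by simpa using h.const 1, fun _ => zero_le_one, fun _ => le_rfl, rfl, ?_⟩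
      rintro w ⟨a, ha, _⟩
      simp at ha
    | insert a J haJ ih =>
      intro hJ
      obtain ⟨f, hfA, hf0, hf1, hfz, hfJ⟩ := ih (fun b hb => hJ b (Finset.mem_insert_of_mem hb))
      have haA : a ∈ A := hJ a (Finset.mem_insert_self a J)
      obtain ⟨q, hq1, hq2⟩ := exists_rat_btwn (show a z - ρ < a z by linarith)
      have hgA : (fun w => max 0 (min 1 (((2 : ℚ) : ℝ) - (((1 / ρ : ℚ)) : ℝ) * |a w - q|))) ∈ A := by
        refine h.clamp (h.sub (h.const 2) (h.mul _ (h.const (1 / ρ)) _ (h.abs (h.sub haA (h.const q)))))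
      refine ⟨fun w => f w * max 0 (min 1 (((2 : ℚ) : ℝ) - (((1 / ρ : ℚ)) : ℝ) * |a w - q|)), h.mul _ hfA _ hgA,
        fun w => mul_nonneg (hf0 w) (le_max_left _ _), fun w => ?_, ?_, ?_⟩
      · have h1 : max 0 (min 1 (((2 : ℚ) : ℝ) - (((1 / ρ : ℚ)) : ℝ) * |a w - q|)) ≤ 1 :=
          max_le zero_le_one (min_le_left _ _)
        exact mul_le_one₀ (hf1 w) (le_max_left _ _) h1
      · have h1 : |a z - q| ≤ ρ := by
          rw [abs_le]
          constructor <;> linarith
        have h2 : (((1 / ρ : ℚ)) : ℝ) * |a z - q| ≤ 1 := by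
          push_cast
          rw [one_div, inv_mul_le_iff₀ hρ0]
          linarith
        simp only
        rw [hfz, one_mul]
        push_cast at h2 ⊢
        rw [min_eq_left (by linarith), max_eq_right zero_le_one]
      · rintro w ⟨b, hb, hbw⟩
        simp only
        rcases Finset.mem_insert.1 hb with rfl | hb
        · have h1 : 2 * ρ ≤ |b w - q| := by
            have h3 : |b w - b z| ≤ |b w - q| + |(q : ℝ) - b z| := by
              have := abs_sub_le (b w) q (b z)
              exact this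
            have h4 : |(q : ℝ) - b z| ≤ ρ := by
              rw [abs_le]
              constructor <;> linarith
            linarith
          have h2 : 2 ≤ (((1 / ρ : ℚ)) : ℝ) * |b w - q| := by
            push_cast
            rw [one_div, le_inv_mul_iff₀ hρ0]
            linarith
          have h5 : min 1 (((2 : ℚ) : ℝ) - (((1 / ρ : ℚ)) : ℝ) * |b w - q|) ≤ 0 := by
            refine (min_le_right _ _).trans ?_
            push_cast at h2 ⊢
            linarith
          rw [max_eq_left h5, mul_zero]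
        · rw [hfJ w ⟨b, hb, hbw⟩, zero_mul]
  obtain ⟨f, hfA, hf0, hf1, hfz, hfI⟩ := key I hI
  refine ⟨f, hfA, hf0, hf1, hfz, fun w hw => hfI w ?_⟩
  by_contra hcon
  push Not at hcon
  exact hw (hsub w hcon)

/-- cut-off functions at a finite set -/
lemma LR.cutoff_finset (h : LR A) (hg : Gen A) (S : Finset Z) (V : Set Z) (hV : IsOpen V) (hS : ∀ z ∈ S, z ∈ V) :
    ∃ f ∈ A, (∀ w, 0 ≤ f w) ∧ (∀ w, f w ≤ 1) ∧ (∀ z ∈ S, f z = 1) ∧ ∀ w, w ∉ V → f w = 0 := by
  classical
  induction S using Finset.induction_on with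
  | empty =>
    exact ⟨fun _ => 0, by simpa using h.const 0, fun _ => le_rfl, fun _ => zero_le_one, by simp, fun _ _ => rfl⟩
  | insert a S ha ih =>
    obtain ⟨f, hfA, hf0, hf1, hfS, hfV⟩ := ih (fun z hz => hS z (Finset.mem_insert_of_mem hz))
    obtain ⟨g, hgA, hg0, hg1, hga, hgV⟩ := h.cutoff hg a V hV (hS a (Finset.mem_insert_self a S))
    refine ⟨fun w => max (f w) (g w), h.sup _ hfA _ hgA, fun w => (hf0 w).trans (le_max_left _ _),
      fun w => max_le (hf1 w) (hg1 w), ?_, fun w hw => ?_⟩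
    · intro z hz
      rcases Finset.mem_insert.1 hz with rfl | hz
      · simp only
        rw [hga, max_eq_right (hf1 _)]
      · simp only
        rw [hfS z hz, max_eq_left (hg1 _)]
    · simp only
      rw [hfV w hw, hgV w hw, max_self]

/-- interpolation of values -/
lemma LR.interp [T1Space Z] (h : LR A) (hg : Gen A) (S : Finset Z) (f : Z → ℝ) (η : ℝ) (hη : 0 < η) :
    ∃ a ∈ A, ∀ z ∈ S, |a z - f z| < η := by
  classical
  have key : ∀ J : Finset Z, J ⊆ S → ∃ a ∈ A, (∀ z ∈ J, |a z - f z| < η) ∧ ∀ z ∈ S, z ∉ J → a z = 0 := by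
    intro J
    induction J using Finset.induction_on with
    | empty =>
      intro _
      exact ⟨fun _ => 0, by simpa using h.const 0, by simp, fun _ _ _ => rfl⟩
    | insert b J hb ih =>
      intro hJS
      obtain ⟨a, haA, ha1, ha2⟩ := ih (fun z hz => hJS (Finset.mem_insert_of_mem hz))
      have hbS : b ∈ S := hJS (Finset.mem_insert_self b J)
      obtain ⟨g, hgA, hg0, hg1, hgb, hgV⟩ := h.cutoff hg b ((↑(S.erase b) : Set Z)ᶜ)
        (Finset.finite_toSet _).isClosed.isOpen_compl (by simp)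
      obtain ⟨q, hq1, hq2⟩ := exists_rat_btwn (show f b - η < f b by linarith)
      refine ⟨fun w => a w + (q : ℝ) * g w, h.add _ haA _ (h.mul _ (h.const q) _ hgA), ?_, ?_⟩
      · intro z hz
        rcases Finset.mem_insert.1 hz with rfl | hz
        · simp only
          rw [hgb, ha2 z hbS hb, zero_add, mul_one, abs_lt]
          constructor <;> linarith
        · have hne : z ≠ b := fun h => hb (h ▸ hz)
          have hzS : z ∈ S := hJS (Finset.mem_insert_of_mem hz)
          simp only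
          rw [hgV z (by simp [hne, hzS]), mul_zero, add_zero]
          exact ha1 z hz
      · intro z hzS hz
        have hne : z ≠ b := fun h => hz (h ▸ Finset.mem_insert_self _ _)
        have hzJ : z ∉ J := fun h => hz (Finset.mem_insert_of_mem h)
        simp only
        rw [hgV z (by simp [hne, hzS]), mul_zero, add_zero]
        exact ha2 z hzS hzJ
  obtain ⟨a, haA, ha, -⟩ := key S (Finset.Subset.refl S)
  exact ⟨a, haA, ha⟩

lemma LR.good [T1Space Z] (h : LR A) (hg : Gen A) (hc : ∀ a ∈ A, Continuous a) : Good A where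
  cont := hc
  lam := by
    intro a ha b hb S V hV hS
    obtain ⟨l, hlA, hl0, hl1, hlS, hlV⟩ := h.cutoff_finset hg S V hV hS
    refine ⟨fun z => a z + l z * (b z - a z), h.add _ ha _ (h.mul _ hlA _ (h.sub hb ha)), ?_, ?_, ?_, ?_⟩
    · intro x hx
      simp only
      rw [hlS x hx]
      ring
    · intro x hx
      simp only
      rw [hlV x hx]
      ring
    · intro x
      simp only
      have e1 : a x - (a x + l x * (b x - a x)) = l x * (a x - b x) := by ring
      rw [e1, abs_mul, abs_of_nonneg (hl0 x)]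
      exact mul_le_of_le_one_left (abs_nonneg _) (hl1 x)
    · intro x m h1 h2
      simp only
      have e1 : a x + l x * (b x - a x) = (1 - l x) * a x + l x * b x := by ring
      have h3 := hl0 x
      have h4 : 0 ≤ 1 - l x := by linarith [hl1 x]
      rw [e1]
      rw [abs_le] at *
      constructor
      · nlinarith [mul_le_mul_of_nonneg_left h1.1 h4, mul_le_mul_of_nonneg_left h2.1 h3]
      · nlinarith [mul_le_mul_of_nonneg_left h1.2 h4, mul_le_mul_of_nonneg_left h2.2 h3]
  dense := by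
    intro m f hf S η hη
    obtain ⟨a, haA, ha⟩ := h.interp hg S f η hη
    have hm : (fun _ => ((m : ℚ) : ℝ)) ∈ A := h.const m
    have hm2 : (fun _ => ((-m : ℚ) : ℝ)) ∈ A := h.const (-m)
    refine ⟨fun z => max ((-m : ℚ) : ℝ) (min ((m : ℚ) : ℝ) (a z)), h.sup _ hm2 _ (h.inf hm haA), ?_, ?_⟩
    · intro z
      push_cast
      rw [abs_le]
      refine ⟨le_max_left _ _, max_le ?_ (min_le_left _ _)⟩
      have : (0 : ℝ) ≤ m := Nat.cast_nonneg m
      linarith
    · intro z hz
      push_cast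
      have h1 := ha z hz
      have h2 := hf z
      rw [abs_lt] at *
      rw [abs_le] at h2
      have h0 : (0 : ℝ) ≤ m := Nat.cast_nonneg m
      constructor
      · have : f z - η < max (-(m : ℝ)) (min (m : ℝ) (a z)) := by
          refine lt_max_of_lt_right (lt_min ?_ ?_) <;> linarith
        linarith
      · have : max (-(m : ℝ)) (min (m : ℝ) (a z)) < f z + η := by
          refine max_lt ?_ ((min_le_right _ _).trans_lt ?_) <;> linarith
        linarith

end alg

end Pool.Agent.Helper27.AD
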