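import Mathlib
import Pool.Agent.Helper27.AD.Pieces
import Pool.Agent.Helper27.AD.Rich

set_option autoImplicit false

namespace Pool.Agent.Helper27.AD

open Set Topology Filter

lemma closing_off {T : Type} (op : (Σ k : ℕ, (Fin k → T)) → Set T) (hop : ∀ p, (op p).Countable)
    (A0 : Set T) (h0 : A0.Countable) :
    ∃ A : Set T, A.Countable ∧ A0 ⊆ A ∧ ∀ (k : ℕ) (w : Fin k → T), (∀ i, w i ∈ A) → op ⟨k, w⟩ ⊆ A := by
  let nx : Set T → Set T := fun A => A ∪ ⋃ p : (Σ k : ℕ, (Fin k → A)), op ⟨p.1, fun i => (p.2 i).1⟩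
  have hnx : ∀ A : Set T, A.Countable → (nx A).Countable := by
    intro A hA
    have : Countable A := hA.to_subtype
    exact hA.union (Set.countable_iUnion fun p => hop _)
  let S : ℕ → Set T := fun n => nx^[n] A0
  have hS : ∀ n, S (n + 1) = nx (S n) := fun n => Function.iterate_succ_apply' nx n A0
  have hSc : ∀ n, (S n).Countable := by
    intro n
    induction n with
    | zero => exact h0
    | succ n ih => rw [hS]; exact hnx _ ih
  have hmono : Monotone S := monotone_nat_of_le_succ fun n => by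
    rw [hS]
    exact subset_union_left
  refine ⟨⋃ n, S n, Set.countable_iUnion hSc, subset_iUnion S 0, fun k w hw => ?_⟩
  have h1 : ∀ i, ∃ n, w i ∈ S n := fun i => mem_iUnion.1 (hw i)
  choose N hN using h1
  have h2 : ∀ i, w i ∈ S (Finset.univ.sup N) := fun i => hmono (Finset.le_sup (Finset.mem_univ i)) (hN i)
  refine Subset.trans ?_ (subset_iUnion S (Finset.univ.sup N + 1))
  rw [hS]
  refine Subset.trans ?_ subset_union_right
  exact subset_iUnion (fun p : (Σ k : ℕ, (Fin k → S (Finset.univ.sup N))) => op ⟨p.1, fun i => (p.2 i).1⟩)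
    ⟨k, fun i => ⟨w i, h2 i⟩⟩

section quot

variable {X : Type}

/-- the separable metrizable image of `X` determined by a family of functions -/
abbrev Q (A : Set (X → ℝ)) : Type := ↥(Set.range (fun (x : X) (a : A) => a.1 x))

/-- the projection -/
def pr (A : Set (X → ℝ)) (x : X) : Q A := ⟨fun a => a.1 x, mem_range_self x⟩

lemma pr_surj (A : Set (X → ℝ)) : Function.Surjective (pr A) := by
  rintro ⟨_, x, rfl⟩
  exact ⟨x, rfl⟩

/-- the family on the quotient -/
def fam (A : Set (X → ℝ)) : Set (Q A → ℝ) := {f | (fun x => f (pr A x)) ∈ A}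

lemma fam_eq {A : Set (X → ℝ)} {f : Q A → ℝ} (hf : f ∈ fam A) (z : Q A) :
    f z = z.1 ⟨fun x => f (pr A x), hf⟩ := by
  obtain ⟨x, rfl⟩ := pr_surj A z
  rfl

lemma coord_mem {A : Set (X → ℝ)} (a : A) : (fun z : Q A => z.1 a) ∈ fam A := a.2

lemma fam_cont {A : Set (X → ℝ)} {f : Q A → ℝ} (hf : f ∈ fam A) : Continuous f := by
  have : f = fun z : Q A => z.1 ⟨fun x => f (pr A x), hf⟩ := funext (fam_eq hf)
  rw [this]
  exact (continuous_apply _).comp continuous_subtype_val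

lemma fam_LR {A : Set (X → ℝ)} (h : LR A) : LR (fam A) where
  add := fun _ ha _ hb => h.add _ ha _ hb
  mul := fun _ ha _ hb => h.mul _ ha _ hb
  sup := fun _ ha _ hb => h.sup _ ha _ hb
  const := fun q => h.const q

lemma fam_Gen (A : Set (X → ℝ)) : Gen (fam A) := by
  classical
  intro z V hV hz
  obtain ⟨N, hN, rfl⟩ := isOpen_induced_iff.1 hV
  obtain ⟨S, η, hη, hS⟩ := nhds_pi_real (hN.mem_nhds hz)
  refine ⟨S.image (fun a => fun z : Q A => z.1 a), η, hη, ?_, ?_⟩
  · intro a ha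
    obtain ⟨b, _, rfl⟩ := Finset.mem_image.1 ha
    exact coord_mem b
  · intro w hw
    refine hS w.1 fun a ha => ?_
    exact hw _ (Finset.mem_image_of_mem _ ha)

lemma fam_good {A : Set (X → ℝ)} (h : LR A) : Good (fam A) :=
  (fam_LR h).good (fam_Gen A) fun _ ha => fam_cont ha

lemma closure_good {Z : Type} [TopologicalSpace Z] {A : Set (Z → ℝ)} (h : Good A) (g : Z → ℝ) : g ∈ closure A := by
  rw [mem_closure_iff_nhds]
  intro N hN
  obtain ⟨S, η, hη, hS⟩ := nhds_pi_real hN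
  obtain ⟨m, hm⟩ : ∃ m : ℕ, ∀ z ∈ S, |g z| ≤ m := by
    obtain ⟨m, hm⟩ := exists_nat_ge (∑ z ∈ S, |g z|)
    exact ⟨m, fun z hz => (Finset.single_le_sum (f := fun z => |g z|) (fun _ _ => abs_nonneg _) hz).trans hm⟩
  obtain ⟨a, haA, -, ha⟩ := h.dense m (fun z => max (-(m : ℝ)) (min m (g z))) (fun z => by
    rw [abs_le]
    refine ⟨le_max_left _ _, max_le ?_ (min_le_left _ _)⟩
    have : (0 : ℝ) ≤ m := Nat.cast_nonneg m
    linarith) S η hη
  refine ⟨a, hS a fun z hz => ?_, haA⟩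
  have h1 := ha z hz
  have h2 := abs_le.1 (hm z hz)
  simp only [min_eq_right h2.2, max_eq_right h2.1] at h1
  exact h1

lemma closure_lift {A : Set (X → ℝ)} (h : LR A) (g : Q A → ℝ) : (fun x => g (pr A x)) ∈ closure A := by
  have h1 := closure_good (fam_good h) g
  have hc : Continuous (fun (g : Q A → ℝ) (x : X) => g (pr A x)) :=
    continuous_pi fun x => continuous_apply _
  exact map_mem_closure hc h1 fun f hf => hf

variable {Y : Type}

lemma const_fib (φ : (X → ℝ) ≃ₜ (Y → ℝ)) {A : Set (X → ℝ)} {B : Set (Y → ℝ)} (hA : LR A)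
    (hAB : ∀ a ∈ A, φ a ∈ B) (g : Q A → ℝ) {y1 y2 : Y} (h : pr B y1 = pr B y2) :
    φ (fun x => g (pr A x)) y1 = φ (fun x => g (pr A x)) y2 := by
  have h1 : φ (fun x => g (pr A x)) ∈ closure B := map_mem_closure φ.continuous (closure_lift hA g) hAB
  have h2 : IsClosed {u : Y → ℝ | u y1 = u y2} := isClosed_eq (continuous_apply _) (continuous_apply _)
  have h3 : B ⊆ {u : Y → ℝ | u y1 = u y2} := by
    intro b hb
    have := congrArg (fun z : Q B => z.1 ⟨b, hb⟩) h
    exact this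
  exact closure_minimal h3 h2 h1

/-- the induced map -/
noncomputable def ind (φ : (X → ℝ) ≃ₜ (Y → ℝ)) (A : Set (X → ℝ)) (B : Set (Y → ℝ)) (g : Q A → ℝ) : Q B → ℝ :=
  fun z => φ (fun x => g (pr A x)) (Function.surjInv (pr_surj B) z)

lemma ind_pr (φ : (X → ℝ) ≃ₜ (Y → ℝ)) {A : Set (X → ℝ)} {B : Set (Y → ℝ)} (hA : LR A)
    (hAB : ∀ a ∈ A, φ a ∈ B) (g : Q A → ℝ) (y : Y) :
    ind φ A B g (pr B y) = φ (fun x => g (pr A x)) y := by
  unfold ind
  exact const_fib φ hA hAB g (Function.surjInv_eq _ _)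

lemma ind_cont (φ : (X → ℝ) ≃ₜ (Y → ℝ)) (A : Set (X → ℝ)) (B : Set (Y → ℝ)) : Continuous (ind φ A B) := by
  refine continuous_pi fun z => ?_
  refine (continuous_apply _).comp (φ.continuous.comp ?_)
  exact continuous_pi fun x => continuous_apply _

lemma ind_ind (φ : (X → ℝ) ≃ₜ (Y → ℝ)) {A : Set (X → ℝ)} {B : Set (Y → ℝ)} (hA : LR A) 
    (hAB : ∀ a ∈ A, φ a ∈ B) (g : Q A → ℝ) :
    ind φ.symm B A (ind φ A B g) = g := by
  funext z
  unfold ind
  have h1 : (fun y => ind φ A B g (pr B y)) = φ (fun x => g (pr A x)) := funext fun y => ind_pr φ hA hAB g y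
  change φ.symm (fun y => ind φ A B g (pr B y)) (Function.surjInv (pr_surj A) z) = g z
  rw [h1, Homeomorph.symm_apply_apply]
  exact congrArg g (Function.surjInv_eq _ _)

/-- the induced homeomorphism -/
noncomputable def indH (φ : (X → ℝ) ≃ₜ (Y → ℝ)) {A : Set (X → ℝ)} {B : Set (Y → ℝ)} (hA : LR A) (hB : LR B)
    (hAB : ∀ a ∈ A, φ a ∈ B) (hBA : ∀ b ∈ B, φ.symm b ∈ A) : (Q A → ℝ) ≃ₜ (Q B → ℝ) where
  toFun := ind φ A B
  invFun := ind φ.symm B A
  left_inv := ind_ind φ hA hAB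
  right_inv := ind_ind φ.symm hB hBA
  continuous_toFun := ind_cont φ A B
  continuous_invFun := ind_cont φ.symm B A

lemma dim_quot (φ : (X → ℝ) ≃ₜ (Y → ℝ)) {A : Set (X → ℝ)} {B : Set (Y → ℝ)} (hAc : A.Countable) (hBc : B.Countable)
    (hA : LR A) (hB : LR B) (hAB : ∀ a ∈ A, φ a ∈ B) (hBA : ∀ b ∈ B, φ.symm b ∈ A) {n : ℕ}
    (h : DimLE n (Q A)) : DimLE n (Q B) := by
  have : Countable A := hAc.to_subtype
  have : Countable B := hBc.to_subtype
  refine dim_transfer (indH φ hA hB hAB hBA) (fam_good hA) (fam_good hB) ?_ ?_ h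
  · intro a ha
    change (fun y => ind φ A B a (pr B y)) ∈ B
    have h1 : (fun y => ind φ A B a (pr B y)) = φ (fun x => a (pr A x)) := funext fun y => ind_pr φ hA hAB a y
    rw [h1]
    exact hAB _ ha
  · intro b hb
    change (fun y => ind φ.symm B A b (pr A y)) ∈ A
    have h1 : (fun y => ind φ.symm B A b (pr A y)) = φ.symm (fun x => b (pr B x)) :=
      funext fun y => ind_pr φ.symm hB hBA b y
    rw [h1]
    exact hBA _ hb

end quot

end Pool.Agent.Helper27.AD
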