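import Mathlib
import Pool.Agent.Helper27.AD.Quot

set_option autoImplicit false

namespace Pool.Agent.Helper27.AD

open Set Topology Filter

/-- the family contains order `n + 1` refinements of its own uniform covers -/
def Ref {Z : Type} (n : ℕ) (A : Set (Z → ℝ)) : Prop :=
  ∀ (k : ℕ) (w : Fin k → (Z → ℝ)), (∀ i, w i ∈ A) → (∀ z, ∃ i, (1 / 2 : ℝ) ≤ w i z) →
    ∃ (m : ℕ) (v : Fin m → (Z → ℝ)), (∀ j, v j ∈ A) ∧ (∀ j z, 0 ≤ v j z) ∧ (∀ z, ∑ j, v j z = 1) ∧
      (∀ j, ∃ i, ∀ z, v j z ≠ 0 → (1 / 4 : ℝ) ≤ w i z) ∧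
      (∀ s : Finset (Fin m), s.card = n + 2 → ∀ z, ∃ j ∈ s, v j z = 0)

lemma Ref.quot {X : Type} {A : Set (X → ℝ)} {n : ℕ} (h : Ref n A) : Ref n (fam A) := by
  intro k w hw hc
  obtain ⟨m, v, h1, h2, h3, h4, h5⟩ := h k (fun i x => w i (pr A x)) hw (fun x => hc (pr A x))
  refine ⟨m, fun j z => z.1 ⟨v j, h1 j⟩, fun j => h1 j, ?_, ?_, ?_, ?_⟩
  · intro j z
    obtain ⟨x, rfl⟩ := pr_surj A z
    exact h2 j x
  · intro z
    obtain ⟨x, rfl⟩ := pr_surj A z
    exact h3 x
  · intro j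
    obtain ⟨i, hi⟩ := h4 j
    refine ⟨i, fun z => ?_⟩
    obtain ⟨x, rfl⟩ := pr_surj A z
    exact hi x
  · intro s hs z
    obtain ⟨x, rfl⟩ := pr_surj A z
    exact h5 s hs x

lemma nhds_pi_dist {E M : Type*} [PseudoMetricSpace M] {f : E → M} {N : Set (E → M)} (hN : N ∈ 𝓝 f) :
    ∃ (S : Finset E) (η : ℝ), 0 < η ∧ ∀ f' : E → M, (∀ x ∈ S, dist (f' x) (f x) < η) → f' ∈ N := by
  classical
  rw [nhds_pi, Filter.mem_pi] at hN
  obtain ⟨I, hI, t, ht, hsub⟩ := hN
  have h1 : ∀ i, ∃ η : ℝ, 0 < η ∧ Metric.ball (f i) η ⊆ t i := fun i => Metric.mem_nhds_iff.1 (ht i)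
  choose η hη hηt using h1
  have h2 : ∀ᶠ r in 𝓝[>] (0 : ℝ), ∀ i ∈ I, r < η i := by
    rw [Filter.eventually_all_finite hI]
    intro i _
    exact eventually_nhdsWithin_of_eventually_nhds (eventually_lt_nhds (hη i))
  obtain ⟨r, hr, hr0⟩ := (h2.and self_mem_nhdsWithin).exists
  refine ⟨hI.toFinset, r, hr0, fun f' hf' => hsub ?_⟩
  intro i hi
  apply hηt
  rw [Metric.mem_ball]
  exact (hf' i (hI.mem_toFinset.2 hi)).trans (hr i hi)

lemma LR.sup_finset {Z : Type*} {A : Set (Z → ℝ)} (h : LR A) {α : Type*} (t : Finset α) (g : α → Z → ℝ)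
    (hg : ∀ κ ∈ t, g κ ∈ A) :
    ∃ f ∈ A, (∀ κ ∈ t, ∀ z, g κ z ≤ f z) ∧ ∀ z, f z = 0 ∨ ∃ κ ∈ t, f z = g κ z := by
  classical
  induction t using Finset.induction_on with
  | empty => exact ⟨fun _ => 0, by simpa using h.const 0, by simp, fun _ => Or.inl rfl⟩
  | insert a t ha ih =>
    obtain ⟨f, hfA, hf1, hf2⟩ := ih (fun κ hκ => hg κ (Finset.mem_insert_of_mem hκ))
    refine ⟨fun z => max (f z) (g a z), h.sup _ hfA _ (hg a (Finset.mem_insert_self a t)), ?_, ?_⟩
    · intro κ hκ z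
      rcases Finset.mem_insert.1 hκ with rfl | hκ
      · exact le_max_right _ _
      · exact (hf1 κ hκ z).trans (le_max_left _ _)
    · intro z
      simp only
      rcases max_choice (f z) (g a z) with h1 | h1
      · rw [h1]
        rcases hf2 z with h2 | ⟨κ, hκ, h2⟩
        · exact Or.inl h2
        · exact Or.inr ⟨κ, Finset.mem_insert_of_mem hκ, h2⟩
      · rw [h1]
        exact Or.inr ⟨a, Finset.mem_insert_self a t, rfl⟩

/-- functions of the family with values in the unit interval -/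
abbrev E01 {Z : Type} (A : Set (Z → ℝ)) : Type := {a : Z → ℝ // a ∈ A ∧ ∀ z, a z ∈ Icc (0 : ℝ) 1}

/-- evaluation -/
def ev01 {Z : Type} (A : Set (Z → ℝ)) (z : Z) : E01 A → Icc (0 : ℝ) 1 := fun a => ⟨a.1 z, a.2.2 z⟩

/-- the compactification -/
abbrev KK {Z : Type} (A : Set (Z → ℝ)) : Type := ↥(closure (Set.range (ev01 A)))

/-- the embedding -/
def eK {Z : Type} (A : Set (Z → ℝ)) (z : Z) : KK A := ⟨ev01 A z, subset_closure (mem_range_self z)⟩

section

variable {Z : Type} {A : Set (Z → ℝ)}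

/-- coordinates on the compactification -/
def co (a : E01 A) (κ : KK A) : ℝ := (κ.1 a : ℝ)

lemma co_cont (a : E01 A) : Continuous (co a) :=
  continuous_subtype_val.comp ((continuous_apply a).comp continuous_subtype_val)

lemma co_eK (a : E01 A) (z : Z) : co a (eK A z) = a.1 z := rfl

lemma dense_eK (κ : KK A) : κ ∈ closure (range (eK A)) := by
  rw [closure_subtype]
  have : (Subtype.val '' range (eK A) : Set (E01 A → Icc (0 : ℝ) 1)) = range (ev01 A) := by
    rw [← range_comp]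
    rfl
  rw [this]
  exact κ.2

lemma eq_of_dense {f g : KK A → ℝ} (hf : Continuous f) (hg : Continuous g) (h : ∀ z, f (eK A z) = g (eK A z))
    (κ : KK A) : f κ = g κ := by
  have h1 : IsClosed {κ | f κ = g κ} := isClosed_eq hf hg
  have h2 : range (eK A) ⊆ {κ | f κ = g κ} := by
    rintro _ ⟨z, rfl⟩
    exact h z
  exact closure_minimal h2 h1 (dense_eK κ)

/-- continuous functions on the compactification restricting into the family -/
def hat (A : Set (Z → ℝ)) : Set (KK A → ℝ) := {f | Continuous f ∧ (fun z => f (eK A z)) ∈ A}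

lemma hat_LR (h : LR A) : LR (hat A) where
  add := fun _ ha _ hb => ⟨ha.1.add hb.1, h.add _ ha.2 _ hb.2⟩
  mul := fun _ ha _ hb => ⟨ha.1.mul hb.1, h.mul _ ha.2 _ hb.2⟩
  sup := fun _ ha _ hb => ⟨ha.1.max hb.1, h.sup _ ha.2 _ hb.2⟩
  const := fun q => ⟨continuous_const, h.const q⟩

lemma co_hat (a : E01 A) : co a ∈ hat A := ⟨co_cont a, a.2.1⟩

lemma hat_Gen : Gen (hat A) := by
  classical
  intro κ V hV hκ
  obtain ⟨N, hN, rfl⟩ := isOpen_induced_iff.1 hV
  obtain ⟨S, η, hη, hS⟩ := nhds_pi_dist (hN.mem_nhds hκ)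
  refine ⟨S.image (fun a => co a), η, hη, ?_, ?_⟩
  · intro a ha
    obtain ⟨b, _, rfl⟩ := Finset.mem_image.1 ha
    exact co_hat b
  · intro w hw
    refine hS w.1 fun a ha => ?_
    rw [Subtype.dist_eq, Real.dist_eq]
    exact hw _ (Finset.mem_image_of_mem _ ha)

lemma dim_KK (h : LR A) {n : ℕ} (hR : Ref n A) : DimLE n (KK A) := by
  classical
  have : CompactSpace (KK A) := isCompact_iff_compactSpace.1 isClosed_closure.isCompact
  intro k O hO hc
  have h1 : ∀ κ : KK A, ∃ i, κ ∈ O i := fun κ => mem_iUnion.1 (hc ▸ mem_univ κ)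
  choose ix hix using h1
  have h2 := fun κ : KK A => (hat_LR h).cutoff hat_Gen κ (O (ix κ)) (hO _) (hix κ)
  choose f hfA hf0 hf1 hfκ hfO using h2
  obtain ⟨t, -, ht⟩ := isCompact_univ.elim_nhds_subcover (fun κ : KK A => {κ' | (1 / 2 : ℝ) < f κ κ'}) (by
    intro κ _
    refine (isOpen_lt continuous_const (hfA κ).1).mem_nhds ?_
    change (1 / 2 : ℝ) < f κ κ
    rw [hfκ]
    norm_num)
  have h3 := fun i : Fin k => (hat_LR h).sup_finset (t.filter fun κ => ix κ = i) f (fun κ _ => hfA κ)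
  choose w hwA hw1 hw2 using h3
  have hwO : ∀ i κ, w i κ ≠ 0 → κ ∈ O i := by
    intro i κ hne
    rcases hw2 i κ with h4 | ⟨κ', hκ', h4⟩
    · exact absurd h4 hne
    · by_contra hcon
      rw [Finset.mem_filter] at hκ'
      apply hne
      rw [h4]
      apply hfO
      rw [hκ'.2]
      exact hcon
  have hwc : ∀ κ, ∃ i, (1 / 2 : ℝ) ≤ w i κ := by
    intro κ
    obtain ⟨κ', hκ', h4⟩ := mem_iUnion₂.1 (ht (mem_univ κ))
    have h4' : (1 / 2 : ℝ) < f κ' κ := h4
    exact ⟨ix κ', h4'.le.trans (hw1 (ix κ') κ' (Finset.mem_filter.2 ⟨hκ', rfl⟩) κ)⟩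
  obtain ⟨m, v, hv1, hv2, hv3, hv4, hv5⟩ := hR k (fun i z => w i (eK A z)) (fun i => (hwA i).2)
    (fun z => hwc (eK A z))
  have hv01 : ∀ j z, v j z ∈ Icc (0 : ℝ) 1 := by
    intro j z
    refine ⟨hv2 j z, ?_⟩
    rw [← hv3 z]
    exact Finset.single_le_sum (f := fun j => v j z) (fun i _ => hv2 i z) (Finset.mem_univ j)
  let a : Fin m → E01 A := fun j => ⟨v j, hv1 j, hv01 j⟩
  have hsum : ∀ κ, ∑ j, co (a j) κ = 1 :=
    eq_of_dense (continuous_finsetSum _ fun j _ => co_cont (a j)) continuous_const (fun z => hv3 z)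
  refine ⟨m, fun j => {κ | co (a j) κ ≠ 0}, fun j => ?_, ?_, ?_, ?_⟩
  · exact isOpen_ne_fun (co_cont (a j)) continuous_const
  · refine eq_univ_of_forall fun κ => ?_
    by_contra hcon
    have h4 : ∀ j, co (a j) κ = 0 := by
      intro j
      by_contra h5
      exact hcon (mem_iUnion.2 ⟨j, h5⟩)
    have h5 := hsum κ
    simp [h4] at h5
  · intro j
    obtain ⟨i, hi⟩ := hv4 j
    refine ⟨i, fun κ hκ => hwO i κ ?_⟩
    have h6 : co (a j) κ * max 0 (1 / 4 - w i κ) = 0 := by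
      refine eq_of_dense (f := fun κ => co (a j) κ * max 0 (1 / 4 - w i κ)) (g := fun _ => 0)
        ((co_cont (a j)).mul (continuous_const.max (continuous_const.sub (hwA i).1))) continuous_const ?_ κ
      intro z
      by_cases h7 : v j z = 0
      · rw [co_eK]
        change v j z * _ = 0
        rw [h7, zero_mul]
      · have h8 := hi z h7
        rw [max_eq_left (by linarith), mul_zero]
    rcases mul_eq_zero.1 h6 with h7 | h7
    · exact absurd h7 hκ
    · have h8 : 1 / 4 - w i κ ≤ 0 := by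
        rw [← h7]
        exact le_max_right _ _
      intro h9
      rw [h9] at h8
      norm_num at h8
  · intro s hs
    refine eq_empty_of_forall_notMem fun κ hκ => ?_
    have h6 : ∏ j ∈ s, co (a j) κ = 0 := by
      refine eq_of_dense (f := fun κ => ∏ j ∈ s, co (a j) κ) (g := fun _ => 0)
        (continuous_finsetProd _ fun j _ => co_cont (a j)) continuous_const ?_ κ
      intro z
      obtain ⟨j, hj, hj0⟩ := hv5 s hs z
      exact Finset.prod_eq_zero hj hj0
    obtain ⟨j, hj, hj0⟩ := Finset.prod_eq_zero_iff.1 h6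
    exact mem_iInter₂.1 hκ j hj hj0

variable [TopologicalSpace Z] [T1Space Z]

lemma emb_eK (h : LR A) (hg : Gen A) (hc : ∀ a ∈ A, Continuous a) : IsEmbedding (eK A) := by
  have hcont : Continuous (eK A) := by
    refine Continuous.subtype_mk ?_ _
    refine continuous_pi fun a => ?_
    exact Continuous.subtype_mk (hc a.1 a.2.1) _
  refine ⟨?_, ?_⟩
  · rw [isInducing_iff_nhds]
    intro z
    refine le_antisymm (hcont.tendsto z).le_comap ?_
    intro V hV
    obtain ⟨V', hV'1, hV'2, hV'3⟩ := mem_nhds_iff.1 hV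
    obtain ⟨f, hfA, hf0, hf1, hfz, hfV⟩ := h.cutoff hg z V' hV'2 hV'3
    let a : E01 A := ⟨f, hfA, fun w => ⟨hf0 w, hf1 w⟩⟩
    refine ⟨{κ | 0 < co a κ}, (isOpen_lt continuous_const (co_cont a)).mem_nhds ?_, fun w hw => hV'1 ?_⟩
    · change 0 < f z
      rw [hfz]
      exact one_pos
    · by_contra hcon
      have h1 : 0 < f w := hw
      rw [hfV w hcon] at h1
      exact lt_irrefl _ h1
  · intro z w hzw
    by_contra hne
    obtain ⟨f, hfA, hf0, hf1, hfz, hfV⟩ := h.cutoff hg z {w}ᶜ isOpen_compl_singleton hne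
    let a : E01 A := ⟨f, hfA, fun w => ⟨hf0 w, hf1 w⟩⟩
    have h1 := congrArg (co a) hzw
    have h2 : f z = f w := h1
    rw [hfz, hfV w (by simp)] at h2
    exact one_ne_zero h2

end

lemma dim_of_ref {X : Type} {A : Set (X → ℝ)} (hA : A.Countable) (h : LR A) {n : ℕ} (hR : Ref n A) :
    DimLE n (Q A) := by
  have h1 : (fam A).Countable := by
    have : fam A ⊆ (fun (a : A) (z : Q A) => z.1 a) '' univ := by
      intro f hf
      exact ⟨⟨_, hf⟩, mem_univ _, (funext (fam_eq hf)).symm⟩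
    have hc : Countable A := hA.to_subtype
    exact ((Set.countable_univ (α := A)).image _).mono this
  have h2 : Countable (E01 (fam A)) := by
    have : ({a | a ∈ fam A ∧ ∀ z, a z ∈ Icc (0 : ℝ) 1} : Set (Q A → ℝ)).Countable := h1.mono fun a ha => ha.1
    exact this.to_subtype
  have hc : Countable A := hA.to_subtype
  have h3 := dim_KK (fam_LR h) hR.quot
  exact h3.of_isEmbedding (emb_eK (fam_LR h) (fam_Gen A) fun _ ha => fam_cont ha)

end Pool.Agent.Helper27.AD
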