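import Mathlib
import Pool.Agent.Helper27.AD.Cpt

set_option autoImplicit false

namespace Pool.Agent.Helper27.AD

open Set Topology Filter

/-- covering dimension at most n by finite cozero covers -/
def CozDim (n : ℕ) (X : Type) [TopologicalSpace X] : Prop :=
  ∀ (k : ℕ) (U : Fin k → Set X),
    (∀ i, ∃ f : C(X, ℝ), U i = {x | f x ≠ 0}) →
    (⋃ i, U i) = Set.univ →
    ∃ (m : ℕ) (V : Fin m → Set X),
      (∀ j, ∃ f : C(X, ℝ), V j = {x | f x ≠ 0}) ∧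
      (⋃ j, V j) = Set.univ ∧
      (∀ j, ∃ i, V j ⊆ U i) ∧
      ∀ s : Finset (Fin m), s.card = n + 2 → (⋂ j ∈ s, V j) = ∅

lemma coz_refine {X : Type} [TopologicalSpace X] {n : ℕ} (h : CozDim n X) {k : ℕ} (w : Fin k → C(X, ℝ))
    (hw : ∀ x, ∃ i, (1 / 2 : ℝ) ≤ w i x) :
    ∃ v : (Σ m : ℕ, (Fin m → C(X, ℝ))), (∀ j x, 0 ≤ v.2 j x) ∧ (∀ x, ∑ j, v.2 j x = 1) ∧
      (∀ j, ∃ i, ∀ x, v.2 j x ≠ 0 → (1 / 4 : ℝ) ≤ w i x) ∧
      ∀ s : Finset (Fin v.1), s.card = n + 2 → ∀ x, ∃ j ∈ s, v.2 j x = 0 := by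
  obtain ⟨m, V, hV, hVc, hr, ho⟩ := h k (fun i => {x | max (w i x - 1 / 4) 0 ≠ 0})
    (fun i => ⟨⟨fun x => max (w i x - 1 / 4) 0, ((w i).continuous.sub continuous_const).max continuous_const⟩, rfl⟩)
    (by
      refine eq_univ_of_forall fun x => ?_
      obtain ⟨i, hi⟩ := hw x
      refine mem_iUnion.2 ⟨i, ?_⟩
      have : 0 < max (w i x - 1 / 4) 0 := lt_max_of_lt_left (by linarith)
      exact this.ne')
  choose g hg using hV
  have hD : ∀ x, 0 < ∑ j, |g j x| := by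
    intro x
    have hx : x ∈ ⋃ j, V j := hVc ▸ mem_univ x
    obtain ⟨j, hj⟩ := mem_iUnion.1 hx
    rw [hg] at hj
    have h1 : 0 < |g j x| := abs_pos.2 hj
    exact h1.trans_le (Finset.single_le_sum (f := fun j => |g j x|) (fun _ _ => abs_nonneg _) (Finset.mem_univ j))
  have hDc : Continuous fun x => ∑ j, |g j x| := continuous_finsetSum _ fun j _ => (g j).continuous.abs
  have hne : ∀ j x, |g j x| / ∑ i, |g i x| ≠ 0 → x ∈ V j := by
    intro j x hx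
    rw [hg]
    intro h0
    apply hx
    rw [h0, abs_zero, zero_div]
  refine ⟨⟨m, fun j => ⟨fun x => |g j x| / ∑ i, |g i x|, (g j).continuous.abs.div hDc fun x => (hD x).ne'⟩⟩,
    ?_, ?_, ?_, ?_⟩
  · intro j x
    exact div_nonneg (abs_nonneg _) (hD x).le
  · intro x
    change ∑ j, |g j x| / ∑ i, |g i x| = 1
    rw [← Finset.sum_div, div_self (hD x).ne']
  · intro j
    obtain ⟨i, hi⟩ := hr j
    refine ⟨i, fun x hx => ?_⟩
    have h1 := hi (hne j x hx)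
    by_contra hcon
    push Not at hcon
    exact h1 (max_eq_right (by linarith))
  · intro s hs x
    by_contra hcon
    push Not at hcon
    have : x ∈ ⋂ j ∈ s, V j := mem_iInter₂.2 fun j hj => hne j x (hcon j hj)
    rw [ho s hs] at this
    exact this

/-- the lattice ring operations -/
def opS {W : Type} [TopologicalSpace W] (p : Σ k : ℕ, (Fin k → C(W, ℝ))) : Set C(W, ℝ) :=
  (⋃ i, ⋃ j, {p.2 i + p.2 j, p.2 i * p.2 j, p.2 i ⊔ p.2 j}) ∪
    range (fun q : ℚ => ContinuousMap.const W (q : ℝ))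

lemma opS_countable {W : Type} [TopologicalSpace W] (p : Σ k : ℕ, (Fin k → C(W, ℝ))) : (opS p).Countable := by
  refine (Set.countable_iUnion fun i => Set.countable_iUnion fun j => ?_).union (Set.countable_range _)
  exact Set.Finite.countable (by simp)

lemma opS_LR {W : Type} [TopologicalSpace W] {A : Set C(W, ℝ)}
    (h : ∀ (k : ℕ) (w : Fin k → C(W, ℝ)), (∀ i, w i ∈ A) → opS ⟨k, w⟩ ⊆ A) :
    LR ((fun (a : C(W, ℝ)) (x : W) => a x) '' A) where
  add := by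
    rintro _ ⟨a, ha, rfl⟩ _ ⟨b, hb, rfl⟩
    refine ⟨a + b, h 2 ![a, b] (by intro i; fin_cases i <;> simp [ha, hb]) ?_, rfl⟩
    refine Or.inl (mem_iUnion.2 ⟨0, mem_iUnion.2 ⟨1, ?_⟩⟩)
    simp
  mul := by
    rintro _ ⟨a, ha, rfl⟩ _ ⟨b, hb, rfl⟩
    refine ⟨a * b, h 2 ![a, b] (by intro i; fin_cases i <;> simp [ha, hb]) ?_, rfl⟩
    refine Or.inl (mem_iUnion.2 ⟨0, mem_iUnion.2 ⟨1, ?_⟩⟩)
    simp
  sup := by
    rintro _ ⟨a, ha, rfl⟩ _ ⟨b, hb, rfl⟩
    refine ⟨a ⊔ b, h 2 ![a, b] (by intro i; fin_cases i <;> simp [ha, hb]) ?_, rfl⟩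
    refine Or.inl (mem_iUnion.2 ⟨0, mem_iUnion.2 ⟨1, ?_⟩⟩)
    simp
  const := by
    intro q
    exact ⟨ContinuousMap.const W (q : ℝ), h 0 (fun i => i.elim0) (fun i => i.elim0) (Or.inr ⟨q, rfl⟩), rfl⟩

lemma coz_of_open {Z : Type} [TopologicalSpace Z] [T3Space Z] [SecondCountableTopology Z] {V : Set Z}
    (hV : IsOpen V) : ∃ f : C(Z, ℝ), V = {z | f z ≠ 0} := by
  have : TopologicalSpace.MetrizableSpace Z := TopologicalSpace.metrizableSpace_of_t3_secondCountable Z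
  let _ := TopologicalSpace.metrizableSpaceMetric Z
  rcases Set.eq_empty_or_nonempty Vᶜ with h | h
  · refine ⟨ContinuousMap.const Z 1, ?_⟩
    rw [compl_empty_iff] at h
    rw [h]
    ext z
    simp
  · refine ⟨⟨fun z => Metric.infDist z Vᶜ, Metric.continuous_infDist_pt _⟩, ?_⟩
    ext z
    have h1 := hV.isClosed_compl.mem_iff_infDist_zero h (x := z)
    constructor
    · intro hz h0
      exact (h1.2 h0) hz
    · intro hz
      by_contra hcon
      exact hz (h1.1 hcon)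

theorem main_dir (X Y : Type) [TopologicalSpace X] [TopologicalSpace Y] (φ : (X → ℝ) ≃ₜ (Y → ℝ))
    (hφ : ∀ f : X → ℝ, Continuous f → Continuous (φ f))
    (hψ : ∀ g : Y → ℝ, Continuous g → Continuous (φ.symm g)) (n : ℕ) (h : CozDim n X) : CozDim n Y := by
  classical
  intro k U hU hUc
  choose u hu using hU
  let Φ : C(X, ℝ) → C(Y, ℝ) := fun a => ⟨φ a, hφ a a.continuous⟩
  let Ψ : C(Y, ℝ) → C(X, ℝ) := fun b => ⟨φ.symm b, hψ b b.continuous⟩
  have hΦΨ : ∀ b, Φ (Ψ b) = b := by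
    intro b
    ext y
    exact congrFun (φ.apply_symm_apply b) y
  have hvv : ∀ p : (Σ k : ℕ, (Fin k → C(X, ℝ))), ∃ v : (Σ m : ℕ, (Fin m → C(X, ℝ))),
      (∀ x, ∃ i, (1 / 2 : ℝ) ≤ p.2 i x) → (∀ j x, 0 ≤ v.2 j x) ∧ (∀ x, ∑ j, v.2 j x = 1) ∧
      (∀ j, ∃ i, ∀ x, v.2 j x ≠ 0 → (1 / 4 : ℝ) ≤ p.2 i x) ∧
      ∀ s : Finset (Fin v.1), s.card = n + 2 → ∀ x, ∃ j ∈ s, v.2 j x = 0 := by
    intro p
    by_cases hp : ∀ x, ∃ i, (1 / 2 : ℝ) ≤ p.2 i x
    · obtain ⟨v, hv⟩ := coz_refine h p.2 hp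
      exact ⟨v, fun _ => hv⟩
    · exact ⟨⟨0, fun i => i.elim0⟩, fun h => absurd h hp⟩
  choose vv hvv using hvv
  let op : (Σ k : ℕ, (Fin k → C(X, ℝ))) → Set C(X, ℝ) := fun p =>
    (opS p ∪ Ψ '' opS ⟨p.1, fun i => Φ (p.2 i)⟩) ∪ range (vv p).2
  have hop : ∀ p, (op p).Countable := fun p =>
    ((opS_countable p).union ((opS_countable _).image _)).union (Set.countable_range _)
  obtain ⟨Ac, hAc, hA0, hAop⟩ := closing_off op hop (range fun i => Ψ (u i)) (Set.countable_range _)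
  let Bc : Set C(Y, ℝ) := Φ '' Ac
  let A : Set (X → ℝ) := (fun (a : C(X, ℝ)) (x : X) => a x) '' Ac
  let B : Set (Y → ℝ) := (fun (b : C(Y, ℝ)) (y : Y) => b y) '' Bc
  have hAc' : A.Countable := hAc.image _
  have hBc' : B.Countable := (hAc.image _).image _
  have hA : LR A := opS_LR fun k w hw => (subset_union_left.trans subset_union_left).trans (hAop k w hw)
  have hB : LR B := by
    refine opS_LR fun k w hw => ?_
    choose a ha1 ha2 using hw
    intro b hb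
    have h1 := hAop k a ha1
    have h2 : Ψ b ∈ op ⟨k, a⟩ := by
      refine Or.inl (Or.inr ⟨b, ?_, rfl⟩)
      have h3 : (fun i => Φ (a i)) = w := funext ha2
      simp only [h3]
      exact hb
    exact ⟨Ψ b, h1 h2, hΦΨ b⟩
  have hAB : ∀ a ∈ A, φ a ∈ B := by
    rintro _ ⟨a, ha, rfl⟩
    exact ⟨Φ a, ⟨a, ha, rfl⟩, rfl⟩
  have hBA : ∀ b ∈ B, φ.symm b ∈ A := by
    rintro _ ⟨_, ⟨a, ha, rfl⟩, rfl⟩
    refine ⟨a, ha, ?_⟩
    exact (φ.symm_apply_apply a).symm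
  have hR : Ref n A := by
    intro k w hw hc
    choose a ha1 ha2 using hw
    have ha3 : ∀ i x, a i x = w i x := fun i x => congrFun (ha2 i) x
    obtain ⟨h1, h2, h3, h4⟩ := hvv ⟨k, a⟩ (by
      intro x
      obtain ⟨i, hi⟩ := hc x
      exact ⟨i, by simp only [ha3]; exact hi⟩)
    refine ⟨(vv ⟨k, a⟩).1, fun j x => (vv ⟨k, a⟩).2 j x, fun j => ⟨_, hAop k a ha1 (Or.inr ⟨j, rfl⟩), rfl⟩,
      h1, h2, ?_, h4⟩
    intro j
    obtain ⟨i, hi⟩ := h3 j
    exact ⟨i, fun x hx => by rw [← ha3]; exact hi x hx⟩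
  have hd : DimLE n (Q B) := dim_quot φ hAc' hBc' hA hB hAB hBA (dim_of_ref hAc' hA hR)
  have hBcount : Countable B := hBc'.to_subtype
  have huB : ∀ i, (fun y => u i y) ∈ B := fun i =>
    ⟨u i, ⟨Ψ (u i), hA0 ⟨i, rfl⟩, hΦΨ _⟩, rfl⟩
  have hprc : Continuous (pr B) := by
    refine Continuous.subtype_mk ?_ _
    refine continuous_pi fun b => ?_
    obtain ⟨c, _, hc⟩ := b.2
    have : (fun y => b.1 y) = fun y => c y := hc.symm
    rw [this]
    exact c.continuous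
  obtain ⟨m, V, hV, hVc, hr, ho⟩ := hd k (fun i => {z | z.1 ⟨fun y => u i y, huB i⟩ ≠ 0})
    (fun i => isOpen_ne_fun ((continuous_apply _).comp continuous_subtype_val) continuous_const) (by
      refine eq_univ_of_forall fun z => ?_
      obtain ⟨y, rfl⟩ := pr_surj B z
      have hy : y ∈ ⋃ i, U i := hUc ▸ mem_univ y
      obtain ⟨i, hi⟩ := mem_iUnion.1 hy
      rw [hu] at hi
      exact mem_iUnion.2 ⟨i, hi⟩)
  refine ⟨m, fun j => pr B ⁻¹' V j, ?_, ?_, ?_, ?_⟩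
  · intro j
    obtain ⟨f, hf⟩ := coz_of_open (hV j)
    refine ⟨⟨fun y => f (pr B y), f.continuous.comp hprc⟩, ?_⟩
    change pr B ⁻¹' V j = _
    rw [hf]
    rfl
  · rw [← preimage_iUnion, hVc, preimage_univ]
  · intro j
    obtain ⟨i, hi⟩ := hr j
    refine ⟨i, fun y hy => ?_⟩
    rw [hu]
    exact hi hy
  · intro s hs
    have := ho s hs
    rw [← preimage_iInter₂, this, preimage_empty]

end Pool.Agent.Helper27.AD
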